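import Pool.Agent.Helper49.Chev.Crit

/-!
The criterion for all standard automorphisms (no condition on the field part): a sharper form of
the twisted Gauss decomposition for twisted classes which are not central.
-/

set_option autoImplicit false

namespace ChevT

open CosetT
open scoped Pointwise

/-- **Rank one**, for matrices which are not scalar. -/
theorem rank_one_c {K : Type*} [Field K] (ρ : K ≃+* K) (c : Kˣ) (y x : K) (s : K)
    (hne : x ≠ 0 ∨ y ≠ 0 ∨ ∃ q : K, ρ q - ((c⁻¹ : Kˣ) : K) * q ≠ 0) :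
    ∃ h : SL2 K, ent (h * (lo y * up x) * (tw c ρ h)⁻¹) 0 0 = s := by
  have key : ∀ h : SL2 K, ent (h * (lo y * up x) * (tw c ρ h)⁻¹) 0 0 =
      (ent h 0 0 + ent h 0 1 * y) * ρ (ent h 1 1) -
        (ent h 0 0 * x + ent h 0 1 * (1 + y * x)) * (((c⁻¹ : Kˣ) : K) * ρ (ent h 1 0)) := by
    intro h
    simp only [ent_mul, ent_inv_00, ent_inv_10, tw, up, lo, ent_mk2_00, ent_mk2_01, ent_mk2_10,
      ent_mk2_11]
    ring
  have hc : ((c⁻¹ : Kˣ) : K) ≠ 0 := Units.ne_zero _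
  by_cases hx : x = 0
  · by_cases hy : y = 0
    · subst hx; subst hy
      have hq0 : ∃ q : K, ρ q - ((c⁻¹ : Kˣ) : K) * q ≠ 0 := by
        rcases hne with h | h | h
        · exact absurd rfl h
        · exact absurd rfl h
        · exact h
      obtain ⟨q, hq⟩ := hq0
      obtain ⟨l, hl⟩ : ∃ l : K, ρ l * (ρ q - ((c⁻¹ : Kˣ) : K) * q) = s - 1 :=
        ⟨ρ.symm ((s - 1) / (ρ q - ((c⁻¹ : Kˣ) : K) * q)), by
          rw [RingEquiv.apply_symm_apply]; field_simp⟩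
      refine ⟨mk2 1 q l (1 + l * q) (by ring), ?_⟩
      rw [key]
      simp only [ent_mk2_00, ent_mk2_01, ent_mk2_10, ent_mk2_11, map_add, map_one, map_mul]
      linear_combination hl
    · subst hx
      obtain ⟨l, hl⟩ : ∃ l : K, y * ρ l + ((c⁻¹ : Kˣ) : K) = s :=
        ⟨ρ.symm ((s - ((c⁻¹ : Kˣ) : K)) / y), by
          rw [RingEquiv.apply_symm_apply, mul_div_cancel₀ _ hy]; ring⟩
      refine ⟨mk2 0 1 (-1) l (by ring), ?_⟩
      rw [key]
      simp only [ent_mk2_00, ent_mk2_01, ent_mk2_10, ent_mk2_11, map_neg, map_one]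
      linear_combination hl
  · obtain ⟨l, hl⟩ : ∃ l : K, 1 - x * (((c⁻¹ : Kˣ) : K) * ρ l) = s :=
      ⟨ρ.symm ((1 - s) / (x * ((c⁻¹ : Kˣ) : K))), by
        rw [RingEquiv.apply_symm_apply, ← mul_assoc, mul_div_cancel₀ _ (mul_ne_zero hx hc)]; ring⟩
    refine ⟨mk2 1 0 l 1 (by ring), ?_⟩
    rw [key]
    simp only [ent_mk2_00, ent_mk2_01, ent_mk2_10, ent_mk2_11, map_one]
    linear_combination hl

namespace Sys

variable {G : Type*} [Group G] {I : Type*} {K : I → Type*} [∀ i, Field (K i)] (S : Sys G I K)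
  (τ : MulAut G)

/-- first type of node: `τ` preserves the `SL_2` -/
def TyA (i : I) : Prop :=
  ∃ (c : (K i)ˣ) (ρ : K i ≃+* K i), ∀ A, τ (S.φ i A) = S.φ i (tw c ρ A)

/-- second type of node: `τ` moves the `SL_2` -/
def TyB (i : I) : Prop :=
  ∃ j, i ≠ j ∧ ∃ (c : (K j)ˣ) (ρ : K i ≃+* K j), ∀ A, τ (S.φ i A) = S.φ j (tw c ρ A)

/-- `t τ` centralises the `SL_2` at the node `i` -/
def Z (i : I) (t : G) : Prop := ∀ A, t * τ (S.φ i A) * t⁻¹ = S.φ i A

/-- the node `i` can be used -/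
def Mov (i : I) (a t b : G) : Prop := S.TyB τ i ∨ a ∉ S.Vm i ∨ b ∉ S.Vp i ∨ ¬ S.Z τ i t

/-- changing the torus part by one factor -/
theorem step2 {i : I} (hτ : S.TyA τ i ∨ S.TyB τ i) {t : G} (ht : t ∈ S.T) (s : (K i)ˣ) {a : G}
    (ha : a ∈ S.Um) {b : G} (hb : b ∈ S.Up) (hm : S.Mov τ i a t b) :
    ∃ h, ∃ a' ∈ S.Um, ∃ b' ∈ S.Up, h * (a * t * b) * (τ h)⁻¹ = a' * (S.φ i (dg s) * t) * b' := by
  by_cases hB : S.TyB τ i
  · obtain ⟨j, hij, c, ρ, hc⟩ := hB
    obtain ⟨y, w, hw, rfl⟩ := S.Um_dec i a ha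
    obtain ⟨x, v, hv, rfl⟩ := S.Up_dec j b hb
    obtain ⟨h, hh1, hh2⟩ := rank_one_b ρ c y x (s : K i)
    obtain ⟨y1, x1, hB1⟩ := eq_lo_dg_up _ s hh1
    obtain ⟨y2, x2, hB2⟩ := eq_lo_dg_up (up x * (tw c ρ h)⁻¹) 1 (by rw [hh2]; simp)
    obtain ⟨e, he⟩ := S.T_conj i t⁻¹ (S.T.inv_mem ht)
    have hst : S.φ i (dg s) * t ∈ S.T := S.T.mul_mem (S.dg_mem i s) ht
    refine ⟨S.φ i h, S.φ i (h * lo y) * w * (S.φ i (h * lo y))⁻¹ * S.φ i (lo y1) *
      ((S.φ i (dg s) * t) * S.φ j (lo y2) * (S.φ i (dg s) * t)⁻¹),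
      S.Um.mul_mem (S.Um.mul_mem (S.Vm_le i (S.Vm_norm i _ w hw)) (S.lo_mem i y1))
        (S.T_m _ hst _ (S.lo_mem j y2)),
      S.φ i (up (e * x1)) * S.φ j (up x2) * (S.φ j (tw c ρ h) * v * (S.φ j (tw c ρ h))⁻¹),
      S.Up.mul_mem (S.Up.mul_mem (S.up_mem i _) (S.up_mem j _))
        (S.Vp_le j (S.Vp_norm j _ v hv)), ?_⟩
    have e3 : t⁻¹ * S.φ i (up x1) * t = S.φ i (up (e * x1)) := by
      have := he (up x1); rw [inv_inv, tw_up] at this; simpa using this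
    have e4 : S.φ i (h * lo y) = S.φ i (lo y1) * S.φ i (dg s) * S.φ i (up x1) := by
      rw [hB1]; simp only [map_mul]
    have e5 : S.φ j (up x) * (S.φ j (tw c ρ h))⁻¹ = S.φ j (lo y2) * S.φ j (up x2) := by
      rw [← map_inv, ← map_mul, hB2, dg_one, mul_one]; simp only [map_mul]
    have e6 : S.φ i (up (e * x1)) * S.φ j (lo y2) = S.φ j (lo y2) * S.φ i (up (e * x1)) :=
      S.comm i j hij _ _
    rw [hc]
    calc S.φ i h * (S.φ i (lo y) * w * t * (S.φ j (up x) * v)) * (S.φ j (tw c ρ h))⁻¹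
        = (S.φ i (h * lo y) * w * (S.φ i (h * lo y))⁻¹) * S.φ i (h * lo y) * t *
          (S.φ j (up x) * (S.φ j (tw c ρ h))⁻¹) *
          (S.φ j (tw c ρ h) * v * (S.φ j (tw c ρ h))⁻¹) := by
          rw [map_mul]; group
      _ = (S.φ i (h * lo y) * w * (S.φ i (h * lo y))⁻¹) * (S.φ i (lo y1) * S.φ i (dg s)) * t *
          ((t⁻¹ * S.φ i (up x1) * t) * S.φ j (lo y2)) * S.φ j (up x2) *
          (S.φ j (tw c ρ h) * v * (S.φ j (tw c ρ h))⁻¹) := by
          rw [e5]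
          have : S.φ i (h * lo y) * w * (S.φ i (h * lo y))⁻¹ * S.φ i (h * lo y) =
            S.φ i (h * lo y) * w * (S.φ i (h * lo y))⁻¹ * (S.φ i (lo y1) * S.φ i (dg s) *
              S.φ i (up x1)) := by rw [e4]
          rw [this]; group
      _ = _ := by rw [e3, e6]; group
  · have hA : S.TyA τ i := hτ.resolve_right hB
    obtain ⟨c, ρ, hc⟩ := hA
    obtain ⟨y, w, hw, rfl⟩ := S.Um_dec i a ha
    obtain ⟨x, v, hv, rfl⟩ := S.Up_dec i b hb
    obtain ⟨d, hd⟩ := S.T_conj i t ht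
    have hne : (d : K i) * x ≠ 0 ∨ y ≠ 0 ∨
        ∃ q : K i, ρ q - (((d * c)⁻¹ : (K i)ˣ) : K i) * q ≠ 0 := by
      rcases hm with h | h | h | h
      · exact absurd h hB
      · right; left
        rintro rfl
        apply h
        rw [lo_zero, map_one, one_mul]
        exact hw
      · left
        rw [Ne, mul_eq_zero, not_or]
        refine ⟨d.ne_zero, ?_⟩
        rintro rfl
        apply h
        rw [up_zero, map_one, one_mul]
        exact hv
      · right; right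
        by_contra hcon
        push Not at hcon
        apply h
        intro A
        have h1 := hcon 1
        rw [map_one, mul_one, sub_eq_zero] at h1
        have h2 : d * c = 1 := by
          have h3 : ((d * c)⁻¹ : (K i)ˣ) = 1 := Units.ext h1.symm
          exact inv_eq_one.mp h3
        have h3 : ρ = RingEquiv.refl (K i) := by
          ext q
          have h4 := hcon q
          rw [h2, inv_one, Units.val_one, one_mul, sub_eq_zero] at h4
          exact h4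
        rw [hc, hd, tw_tw, h2, h3, tw_one]
    obtain ⟨h, hh⟩ := rank_one_c ρ (d * c) y (d * x) (s : K i) hne
    obtain ⟨y', x', hB'⟩ := eq_lo_dg_up _ s hh
    obtain ⟨e, he⟩ := S.T_conj i t⁻¹ (S.T.inv_mem ht)
    refine ⟨S.φ i h, S.φ i (h * lo y) * w * (S.φ i (h * lo y))⁻¹ * S.φ i (lo y'),
      S.Um.mul_mem (S.Vm_le i (S.Vm_norm i _ w hw)) (S.lo_mem i y'),
      S.φ i (up (e * x')) * (S.φ i (tw c ρ h) * v * (S.φ i (tw c ρ h))⁻¹),
      S.Up.mul_mem (S.up_mem i _) (S.Vp_le i (S.Vp_norm i _ v hv)), ?_⟩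
    have e1 : t * S.φ i (tw c ρ h) * t⁻¹ = S.φ i (tw (d * c) ρ h) := by rw [hd, tw_tw]
    have e2 : t * S.φ i (up x) * t⁻¹ = S.φ i (up (d * x)) := by rw [hd, tw_up]; simp
    have e3 : t⁻¹ * S.φ i (up x') * t = S.φ i (up (e * x')) := by
      have := he (up x'); rw [inv_inv, tw_up] at this; simpa using this
    have e4 : S.φ i (h * lo y) * S.φ i (up (d * x)) * (S.φ i (tw (d * c) ρ h))⁻¹ =
      S.φ i (lo y') * S.φ i (dg s) * S.φ i (up x') := by
      rw [← map_mul, ← map_inv, ← map_mul, mul_assoc h, hB']; simp only [map_mul]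
    rw [hc]
    calc S.φ i h * (S.φ i (lo y) * w * t * (S.φ i (up x) * v)) * (S.φ i (tw c ρ h))⁻¹
        = (S.φ i (h * lo y) * w * (S.φ i (h * lo y))⁻¹) * (S.φ i (h * lo y) *
          (t * S.φ i (up x) * t⁻¹) * (t * S.φ i (tw c ρ h) * t⁻¹)⁻¹) * t *
          (S.φ i (tw c ρ h) * v * (S.φ i (tw c ρ h))⁻¹) := by
          rw [map_mul]; group
      _ = (S.φ i (h * lo y) * w * (S.φ i (h * lo y))⁻¹) * (S.φ i (lo y') * S.φ i (dg s) *
          S.φ i (up x')) * t * (S.φ i (tw c ρ h) * v * (S.φ i (tw c ρ h))⁻¹) := by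
          rw [e2, e1, e4]
      _ = _ := by rw [← e3]; group

/-- the two `SL_2`'s commute -/
def Cm (i k : I) : Prop := ∀ A B, S.φ i A * S.φ k B = S.φ k B * S.φ i A

theorem Z_cm {i k : I} (h : S.Cm i k) (s : (K i)ˣ) (t : G) :
    S.Z τ k (S.φ i (dg s) * t) ↔ S.Z τ k t := by
  have e : ∀ A, S.φ i (dg s) * S.φ k A * (S.φ i (dg s))⁻¹ = S.φ k A := by
    intro A
    rw [h, mul_inv_cancel_right]
  constructor
  · intro hz A
    have h1 := hz A
    have e3 : S.φ i (dg s) * t * τ (S.φ k A) * (S.φ i (dg s) * t)⁻¹ =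
        S.φ i (dg s) * (t * τ (S.φ k A) * t⁻¹) * (S.φ i (dg s))⁻¹ := by group
    have h2 := (e3.symm.trans h1).trans (e A).symm
    simpa using h2
  · intro hz A
    have h1 := hz A
    have h2 : S.φ i (dg s) * t * τ (S.φ k A) * (S.φ i (dg s) * t)⁻¹ =
        S.φ i (dg s) * (t * τ (S.φ k A) * t⁻¹) * (S.φ i (dg s))⁻¹ := by group
    rw [h2, h1, e]

/-- torus parts which occur in the twisted class of `g` -/
def R (g t : G) : Prop := t ∈ S.T ∧ ∃ h, ∃ a ∈ S.Um, ∃ b ∈ S.Up, h * g * (τ h)⁻¹ = a * t * b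

theorem R_step (hτ : ∀ i, S.TyA τ i ∨ S.TyB τ i) {g t : G} (h : S.R τ g t) {i : I}
    (hi : ¬ S.Z τ i t) (s : (K i)ˣ) : S.R τ g (S.φ i (dg s) * t) := by
  obtain ⟨ht, h0, a, ha, b, hb, e⟩ := h
  obtain ⟨h1, a', ha', b', hb', e'⟩ := S.step2 τ (hτ i) ht s ha hb (Or.inr (Or.inr (Or.inr hi)))
  refine ⟨S.T.mul_mem (S.dg_mem i s) ht, h1 * h0, a', ha', b', hb', ?_⟩
  rw [← e', ← e, map_mul]
  group

/-- the genericity condition -/
def Gen : Prop := ∀ i, ∀ f ∈ S.T, ∀ g ∈ S.T, ∃ s : (K i)ˣ,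
  (∀ k, ¬ S.Cm i k → ¬ S.Z τ k (S.φ i (dg s) * f)) ∧ ¬ S.Z τ i (S.φ i (dg s) * g)

/-- first step: a representative on which `t τ` does not centralise all the `SL_2`'s -/
theorem exists_start (hτ : ∀ i, S.TyA τ i ∨ S.TyB τ i) (τp : ∀ u ∈ S.Up, τ u ∈ S.Up)
    (hgen : S.Gen τ)
    (hm : ∀ z : G, (∀ h, h * z * h⁻¹ ∈ S.Um) → z = 1)
    (hp : ∀ z : G, (∀ h, h * z * h⁻¹ ∈ S.Up) → z = 1)
    (g : G) (hg : ∃ z, g * τ z * g⁻¹ ≠ z) : ∃ t, S.R τ g t ∧ ∃ i, ¬ S.Z τ i t := by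
  by_contra hcon
  push Not at hcon
  -- no node is ever movable
  have hnm : ∀ h a t b, a ∈ S.Um → t ∈ S.T → b ∈ S.Up → h * g * (τ h)⁻¹ = a * t * b →
      ∀ i, ¬ S.Mov τ i a t b := by
    intro h a t b ha ht hb e i hmov
    obtain ⟨s, -, hs⟩ := hgen i t ht t ht
    obtain ⟨h1, a', ha', b', hb', e'⟩ := S.step2 τ (hτ i) ht s ha hb hmov
    refine hs (hcon _ ⟨S.T.mul_mem (S.dg_mem i s) ht, h1 * h, a', ha', b', hb', ?_⟩ i)
    rw [← e', ← e, map_mul]
    group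
  obtain ⟨u, hu, a, ha, t, ht, b, hb, rfl⟩ := S.big g
  have e0 : u⁻¹ * (u * (a * t * b)) * (τ u⁻¹)⁻¹ = a * t * (b * τ u) := by
    rw [map_inv]; group
  obtain ⟨b1, hb1⟩ : ∃ b1, b1 = b * τ u := ⟨_, rfl⟩
  rw [← hb1] at e0
  have hb1m : b1 ∈ S.Up := by rw [hb1]; exact S.Up.mul_mem hb (τp u hu)
  set X : Set G := {h | h * a * h⁻¹ ∈ S.Um ∧ τ h * b1 * (τ h)⁻¹ ∈ S.Up ∧ h * t * (τ h)⁻¹ = t}
    with hX
  have stepX : ∀ i A, ∀ h ∈ X, S.φ i A * h ∈ X := by
    rintro i A h ⟨h1, h2, h3⟩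
    have e1 : (h * u⁻¹) * (u * (a * t * b)) * (τ (h * u⁻¹))⁻¹ =
        (h * a * h⁻¹) * t * (τ h * b1 * (τ h)⁻¹) := by
      have e2 : (h * u⁻¹) * (u * (a * t * b)) * (τ (h * u⁻¹))⁻¹ =
          h * (u⁻¹ * (u * (a * t * b)) * (τ u⁻¹)⁻¹) * (τ h)⁻¹ := by
        rw [map_mul]; group
      rw [e2, e0]
      have e3 : h * (a * t * b1) * (τ h)⁻¹ =
          h * a * h⁻¹ * (h * t * (τ h)⁻¹) * (τ h * b1 * (τ h)⁻¹) := by group
      rw [e3, h3]
    have h4 := hnm _ _ _ _ h1 ht h2 e1 i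
    unfold Mov at h4
    push Not at h4
    obtain ⟨h5, h6, h7, h8⟩ := h4
    obtain ⟨c, ρ, hc⟩ := (hτ i).resolve_right h5
    refine ⟨?_, ?_, ?_⟩
    · have := S.Vm_le i (S.Vm_norm i A _ h6)
      have e2 : S.φ i A * h * a * (S.φ i A * h)⁻¹ =
        S.φ i A * (h * a * h⁻¹) * (S.φ i A)⁻¹ := by group
      rw [e2]; exact this
    · have := S.Vp_le i (S.Vp_norm i (tw c ρ A) _ h7)
      have e2 : τ (S.φ i A * h) * b1 * (τ (S.φ i A * h))⁻¹ =
        τ (S.φ i A) * (τ h * b1 * (τ h)⁻¹) * (τ (S.φ i A))⁻¹ := by rw [map_mul]; group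
      rw [e2, hc]; exact this
    · have e2 : S.φ i A * h * t * (τ (S.φ i A * h))⁻¹ =
        S.φ i A * (h * t * (τ h)⁻¹) * (τ (S.φ i A))⁻¹ := by rw [map_mul]; group
      rw [e2, h3]
      have h9 := h8 A
      exact mul_inv_eq_iff_eq_mul.mpr (mul_inv_eq_iff_eq_mul.mp h9).symm
  set H : Subgroup G :=
    { carrier := {h | (∀ g ∈ X, h * g ∈ X) ∧ (∀ g ∈ X, h⁻¹ * g ∈ X)}
      mul_mem' := by
        rintro a b ⟨h1, h2⟩ ⟨h3, h4⟩
        refine ⟨fun g hg => ?_, fun g hg => ?_⟩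
        · rw [mul_assoc]; exact h1 _ (h3 _ hg)
        · rw [mul_inv_rev, mul_assoc]; exact h4 _ (h2 _ hg)
      one_mem' := ⟨fun g hg => by simpa using hg, fun g hg => by simpa using hg⟩
      inv_mem' := by
        rintro a ⟨h1, h2⟩
        exact ⟨h2, fun g hg => by rw [inv_inv]; exact h1 g hg⟩ } with hH
  have hall : ∀ h, h ∈ X := by
    intro h
    have h1 : h ∈ H := by
      apply S.gen H
      intro i A
      refine ⟨stepX i A, fun g hg => ?_⟩
      rw [← map_inv]; exact stepX i _ g hg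
    have hone : (1 : G) ∈ X := by
      refine ⟨?_, ?_, ?_⟩
      · simpa using ha
      · simpa using hb1m
      · simp
    have := h1.1 1 hone
    rwa [mul_one] at this
  have ha1 : a = 1 := hm a (fun h => (hall h).1)
  have hb2 : b1 = 1 := hp b1 (fun h => by
    have := (hall (τ.symm h)).2.1
    rwa [MulEquiv.apply_symm_apply] at this)
  obtain ⟨z, hz⟩ := hg
  apply hz
  have h1 : ∀ h, t * τ h * t⁻¹ = h := by
    intro h
    have := (hall h).2.2
    exact mul_inv_eq_iff_eq_mul.mpr (mul_inv_eq_iff_eq_mul.mp this).symm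
  have h2 : u * (a * t * b) = u * t * (τ u)⁻¹ := by
    have hb3 : b = (τ u)⁻¹ := eq_inv_of_mul_eq_one_left (by rw [← hb1]; exact hb2)
    rw [ha1, hb3]; group
  rw [h2]
  have h3 := h1 (u⁻¹ * z * u)
  simp only [map_mul, map_inv] at h3
  calc u * t * (τ u)⁻¹ * τ z * (u * t * (τ u)⁻¹)⁻¹ =
      u * (t * ((τ u)⁻¹ * τ z * τ u) * t⁻¹) * u⁻¹ := by group
    _ = z := by rw [h3]; group

/-- all the `SL_2`'s -/
theorem exists_all [Finite I] (hτ : ∀ i, S.TyA τ i ∨ S.TyB τ i) (hgen : S.Gen τ)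
    (hconn : ∀ A : Set I, A.Nonempty → A ≠ Set.univ → ∃ i ∈ A, ∃ k, k ∉ A ∧ ¬ S.Cm i k)
    {g : G} (hg : ∃ t, S.R τ g t ∧ ∃ i, ¬ S.Z τ i t) : ∃ t, S.R τ g t ∧ ∀ i, ¬ S.Z τ i t := by
  classical
  have := Fintype.ofFinite I
  have key : ∀ n : ℕ, 1 ≤ n → n ≤ Fintype.card I →
      ∃ t, S.R τ g t ∧ n ≤ (Finset.univ.filter (fun i => ¬ S.Z τ i t)).card := by
    intro n hn
    induction n, hn using Nat.le_induction with
    | base =>
      intro _
      obtain ⟨t, ht, i, hi⟩ := hg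
      refine ⟨t, ht, ?_⟩
      rw [Finset.one_le_card]
      exact ⟨i, by simp [hi]⟩
    | succ n hn ih =>
      intro hn2
      obtain ⟨t, ht, hcard⟩ := ih (by omega)
      by_cases hc : n + 1 ≤ (Finset.univ.filter (fun i => ¬ S.Z τ i t)).card
      · exact ⟨t, ht, hc⟩
      · obtain ⟨i, hi, k, hk, hik⟩ := hconn {i | ¬ S.Z τ i t} (by
            have h1 : 0 < (Finset.univ.filter (fun i => ¬ S.Z τ i t)).card := by omega
            obtain ⟨i, hi⟩ := Finset.card_pos.mp h1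
            exact ⟨i, by simpa using hi⟩) (by
            intro h1
            apply hc
            have h2 : Finset.univ.filter (fun i => ¬ S.Z τ i t) = Finset.univ := by
              ext i
              simp only [Finset.mem_filter, Finset.mem_univ, true_and, iff_true]
              have : i ∈ {i | ¬ S.Z τ i t} := by rw [h1]; trivial
              exact this
            rw [h2, Finset.card_univ]
            exact hn2)
        obtain ⟨s, hs, -⟩ := hgen i t ht.1 t ht.1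
        refine ⟨S.φ i (dg s) * t, S.R_step τ hτ ht hi s, ?_⟩
        have hsub : insert k (Finset.univ.filter (fun i => ¬ S.Z τ i t)) ⊆
            Finset.univ.filter (fun j => ¬ S.Z τ j (S.φ i (dg s) * t)) := by
          intro j hj
          simp only [Finset.mem_filter, Finset.mem_univ, true_and]
          rcases Finset.mem_insert.mp hj with rfl | hj
          · exact hs _ hik
          · by_cases hcm : S.Cm i j
            · rw [S.Z_cm τ hcm]
              simpa using hj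
            · exact hs _ hcm
        have hkn : k ∉ Finset.univ.filter (fun i => ¬ S.Z τ i t) := by
          simpa using hk
        calc n + 1 ≤ (Finset.univ.filter (fun i => ¬ S.Z τ i t)).card + 1 := by omega
          _ = (insert k (Finset.univ.filter (fun i => ¬ S.Z τ i t))).card :=
            (Finset.card_insert_of_notMem hkn).symm
          _ ≤ _ := Finset.card_le_card hsub
  obtain ⟨t0, ht0, i0, hi0⟩ := hg
  have hpos : 1 ≤ Fintype.card I := Fintype.card_pos_iff.mpr ⟨i0⟩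
  obtain ⟨t, ht, hcard⟩ := key _ hpos le_rfl
  refine ⟨t, ht, fun i => ?_⟩
  have h1 : Finset.univ.filter (fun i => ¬ S.Z τ i t) = Finset.univ :=
    Finset.eq_univ_of_card _ (le_antisymm (Finset.card_le_univ _) hcard)
  have h2 : i ∈ Finset.univ.filter (fun i => ¬ S.Z τ i t) := by rw [h1]; exact Finset.mem_univ i
  simpa using h2

/-- product of diagonal elements along a list -/
def Pr (l : List I) (f : ∀ i, (K i)ˣ) : G := (l.map (fun i => S.φ i (dg (f i)))).prod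

theorem Pr_nil (f : ∀ i, (K i)ˣ) : S.Pr [] f = 1 := rfl

theorem Pr_cons (i : I) (l : List I) (f : ∀ i, (K i)ˣ) :
    S.Pr (i :: l) f = S.φ i (dg (f i)) * S.Pr l f := by
  unfold Pr
  rw [List.map_cons, List.prod_cons]

theorem Pr_mem (l : List I) (f : ∀ i, (K i)ˣ) : S.Pr l f ∈ S.T := by
  induction l with
  | nil => exact S.T.one_mem
  | cons i l ih => rw [Pr_cons]; exact S.T.mul_mem (S.dg_mem i _) ih

theorem dg_comm (i j : I) (s : (K i)ˣ) (s' : (K j)ˣ) :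
    S.φ i (dg s) * S.φ j (dg s') = S.φ j (dg s') * S.φ i (dg s) := by
  obtain ⟨d, hd⟩ := S.tor j i s
  have h1 := hd (dg s')
  have h2 : tw d (RingEquiv.refl _) (dg s') = dg s' := by
    apply ext2 <;> simp [tw, dg]
  rw [h2, mul_inv_eq_iff_eq_mul] at h1
  exact h1

theorem Pr_comm (i : I) (s : (K i)ˣ) (l : List I) (f : ∀ i, (K i)ˣ) :
    S.φ i (dg s) * S.Pr l f = S.Pr l f * S.φ i (dg s) := by
  induction l with
  | nil => rw [Pr_nil, mul_one, one_mul]
  | cons j l ih =>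
    rw [Pr_cons, ← mul_assoc, S.dg_comm, mul_assoc, ih, mul_assoc]

theorem Pr_mul (l : List I) (f g : ∀ i, (K i)ˣ) :
    S.Pr l f * S.Pr l g = S.Pr l (fun i => f i * g i) := by
  induction l with
  | nil => rw [Pr_nil, Pr_nil, Pr_nil, mul_one]
  | cons j l ih =>
    rw [Pr_cons, Pr_cons, Pr_cons, ← ih, dg_mul, map_mul]
    calc S.φ j (dg (f j)) * S.Pr l f * (S.φ j (dg (g j)) * S.Pr l g)
        = S.φ j (dg (f j)) * (S.Pr l f * S.φ j (dg (g j))) * S.Pr l g := by group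
      _ = _ := by rw [← S.Pr_comm]; group

open Classical in
theorem Pr_update_of_notMem {l : List I} {i : I} (h : i ∉ l) (f : ∀ i, (K i)ˣ) (s : (K i)ˣ) :
    S.Pr l (Function.update f i s) = S.Pr l f := by
  unfold Pr
  congr 1
  apply List.map_congr_left
  intro j hj
  have hji : j ≠ i := fun e => h (e ▸ hj)
  rw [Function.update_of_ne hji]

open Classical in
theorem Pr_update {l : List I} (hl : l.Nodup) {i : I} (h : i ∈ l) (f : ∀ i, (K i)ˣ)
    (s : (K i)ˣ) :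
    S.φ i (dg s) * S.Pr l f = S.Pr l (Function.update f i (s * f i)) := by
  induction l with
  | nil => simp at h
  | cons j l ih =>
    rw [List.nodup_cons] at hl
    by_cases hij : i = j
    · subst hij
      rw [Pr_cons, Pr_cons, S.Pr_update_of_notMem hl.1, Function.update_self, dg_mul, map_mul,
        mul_assoc]
    · have hil : i ∈ l := by
        rcases List.mem_cons.mp h with h | h
        · exact absurd h hij
        · exact h
      rw [Pr_cons, Pr_cons, ← ih hl.2 hil, Function.update_of_ne (fun e => hij e.symm),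
        ← mul_assoc, S.dg_comm, mul_assoc]

theorem T_eq_Pr {l : List I} (hl : l.Nodup) (hc : ∀ i, i ∈ l) :
    ∀ t ∈ S.T, ∃ f, t = S.Pr l f := by
  classical
  refine S.T_induction (p := fun t => ∃ f, t = S.Pr l f) ?_ ?_
  · refine ⟨fun _ => 1, ?_⟩
    have : ∀ l : List I, S.Pr l (fun _ => 1) = 1 := by
      intro l
      induction l with
      | nil => rfl
      | cons j l ih => rw [Pr_cons, ih, dg_one, map_one, mul_one]
    exact (this l).symm
  · rintro i s _ _ ⟨f, rfl⟩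
    exact ⟨_, S.Pr_update hl (hc i) f s⟩

/-- all partial products are non central at their first node -/
def Good : List I → (∀ i, (K i)ˣ) → Prop
  | [], _ => True
  | i :: l, f => ¬ S.Z τ i (S.Pr (i :: l) f) ∧ Good l f

open Classical in
theorem Good_update {l : List I} {i : I} (h : i ∉ l) (f : ∀ i, (K i)ˣ) (s : (K i)ˣ)
    (hf : S.Good τ l f) : S.Good τ l (Function.update f i s) := by
  induction l with
  | nil => trivial
  | cons j l ih =>
    refine ⟨?_, ih (fun e => h (List.mem_cons_of_mem _ e)) hf.2⟩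
    rw [S.Pr_update_of_notMem h]
    exact hf.1

theorem stageB (hτ : ∀ i, S.TyA τ i ∨ S.TyB τ i) (hgen : S.Gen τ) {g : G} (l : List I)
    (hl : l.Nodup) {t : G} (ht : S.R τ g t) (hz : ∀ i, ¬ S.Z τ i t) (f : ∀ i, (K i)ˣ) :
    ∃ s : ∀ i, (K i)ˣ, S.R τ g (S.Pr l s * t) ∧ (∀ i, ¬ S.Z τ i (S.Pr l s * t)) ∧
      S.Good τ l (fun i => s i * f i) := by
  classical
  induction l with
  | nil => exact ⟨fun _ => 1, by rw [Pr_nil, one_mul]; exact ht, by
      intro i; rw [Pr_nil, one_mul]; exact hz i, trivial⟩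
  | cons i l ih =>
    rw [List.nodup_cons] at hl
    obtain ⟨s, h1, h2, h3⟩ := ih hl.2
    obtain ⟨si, hs1, hs2⟩ := hgen i _ h1.1
      (S.φ i (dg (f i)) * S.Pr l (fun j => s j * f j))
      (S.T.mul_mem (S.dg_mem i _) (S.Pr_mem l _))
    have e1 : S.Pr (i :: l) (Function.update s i si) * t = S.φ i (dg si) * (S.Pr l s * t) := by
      rw [Pr_cons, S.Pr_update_of_notMem hl.1, Function.update_self, mul_assoc]
    have e2 : (fun j => Function.update s i si j * f j) =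
        Function.update (fun j => s j * f j) i (si * f i) := by
      ext j
      by_cases hj : j = i
      · subst hj; rw [Function.update_self, Function.update_self]
      · rw [Function.update_of_ne hj, Function.update_of_ne hj]
    refine ⟨Function.update s i si, ?_, ?_, ?_⟩
    · rw [e1]
      exact S.R_step τ hτ h1 (h2 i) si
    · intro k
      rw [e1]
      by_cases hk : S.Cm i k
      · rw [S.Z_cm τ hk]; exact h2 k
      · exact hs1 k hk
    · rw [e2]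
      refine ⟨?_, S.Good_update τ hl.1 _ _ h3⟩
      rw [Pr_cons, S.Pr_update_of_notMem hl.1, Function.update_self, dg_mul, map_mul, mul_assoc]
      exact hs2

theorem stageC (hτ : ∀ i, S.TyA τ i ∨ S.TyB τ i) {g : G} (l : List I) (f : ∀ i, (K i)ˣ)
    (hf : S.Good τ l f) (hR : S.R τ g (S.Pr l f)) : S.R τ g 1 := by
  induction l with
  | nil => exact hR
  | cons i l ih =>
    apply ih hf.2
    have h1 := S.R_step τ hτ hR hf.1 (f i)⁻¹
    rw [Pr_cons, ← mul_assoc, ← map_mul, ← dg_mul, inv_mul_cancel, dg_one, map_one,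
      one_mul] at h1
    exact h1

/-- **Twisted Gauss decomposition with prescribed torus part**, for non central classes -/
theorem cell2 [Finite I] (hτ : ∀ i, S.TyA τ i ∨ S.TyB τ i) (τp : ∀ u ∈ S.Up, τ u ∈ S.Up)
    (hgen : S.Gen τ)
    (hconn : ∀ A : Set I, A.Nonempty → A ≠ Set.univ → ∃ i ∈ A, ∃ k, k ∉ A ∧ ¬ S.Cm i k)
    (hm : ∀ z : G, (∀ h, h * z * h⁻¹ ∈ S.Um) → z = 1)
    (hp : ∀ z : G, (∀ h, h * z * h⁻¹ ∈ S.Up) → z = 1)
    (g : G) (hg : ∃ z, g * τ z * g⁻¹ ≠ z) :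
    ∃ h, ∃ a ∈ S.Um, ∃ b ∈ S.Up, h * g * (τ h)⁻¹ = a * b := by
  classical
  have := Fintype.ofFinite I
  obtain ⟨t, ht, hz⟩ := S.exists_all τ hτ hgen hconn
    (S.exists_start τ hτ τp hgen hm hp g hg)
  have hl : (Finset.univ : Finset I).toList.Nodup := Finset.nodup_toList _
  have hc : ∀ i, i ∈ (Finset.univ : Finset I).toList := fun i => by simp
  obtain ⟨f, hf⟩ := S.T_eq_Pr hl hc t ht.1
  obtain ⟨s, h1, -, h3⟩ := S.stageB τ hτ hgen _ hl ht hz f
  rw [hf, S.Pr_mul] at h1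
  obtain ⟨-, h, a, ha, b, hb, e⟩ := S.stageC τ hτ _ _ h3 h1
  exact ⟨h, a, ha, b, hb, by rw [e, mul_one]⟩

/-- **The criterion.** -/
theorem criterion2 [Finite I] (x : MulAut G) (hτ : ∀ i, S.TyA (x ^ 2) i ∨ S.TyB (x ^ 2) i)
    (xp : ∀ u ∈ S.Up, x u ∈ S.Up) (xp' : ∀ u ∈ S.Up, x⁻¹ u ∈ S.Up)
    (lp : ∀ u ∈ S.Up, ∃ w, u = w * (x w)⁻¹) (lm : ∀ u ∈ S.Um, ∃ w, u = w * (x w)⁻¹)
    (hgen : S.Gen (x ^ 2))
    (hconn : ∀ A : Set I, A.Nonempty → A ≠ Set.univ → ∃ i ∈ A, ∃ k, k ∉ A ∧ ¬ S.Cm i k)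
    (hm : ∀ z : G, (∀ h, h * z * h⁻¹ ∈ S.Um) → z = 1)
    (hp : ∀ z : G, (∀ h, h * z * h⁻¹ ∈ S.Up) → z = 1) :
    ∀ y ∈ coset (x ^ 2), y ≠ 1 → ∃ u v : G, y = (MulAut.conj u * x * (MulAut.conj u)⁻¹) *
      (MulAut.conj v * x * (MulAut.conj v)⁻¹) := by
  rintro y ⟨g, rfl⟩ hy
  have e1 : x ^ 2 * MulAut.conj g = MulAut.conj ((x ^ 2) g) * x ^ 2 := by
    ext z; simp [MulAut.mul_apply]
  have hne : ∃ z, ((x ^ 2) g) * (x ^ 2) z * ((x ^ 2) g)⁻¹ ≠ z := by
    by_contra hcon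
    push Not at hcon
    apply hy
    rw [e1]
    ext z
    rw [MulAut.mul_apply, MulAut.conj_apply, MulAut.one_apply]
    exact hcon z
  obtain ⟨h, a, ha, b, hb, e⟩ := S.cell2 (x ^ 2) hτ
    (fun u hu => by rw [pow_two, MulAut.mul_apply]; exact xp _ (xp u hu)) hgen hconn hm hp
    ((x ^ 2) g) hne
  obtain ⟨w1, hw1⟩ := lm a ha
  obtain ⟨w2, hw2⟩ := lp (x⁻¹ b) (xp' b hb)
  refine ⟨h⁻¹ * w1, h⁻¹ * w2, ?_⟩
  have hg : (x ^ 2) g = h⁻¹ * (a * b) * (x ^ 2) h := by rw [← e]; group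
  have hb2 : b = x w2 * (x (x w2))⁻¹ := by
    have := congrArg x hw2
    rw [MulAut.apply_inv_self, map_mul, map_inv] at this
    exact this
  have e2 : ∀ c : G, MulAut.conj c * x * (MulAut.conj c)⁻¹ = MulAut.conj (c * (x c)⁻¹) * x := by
    intro c; ext z
    simp only [MulAut.mul_apply, ← map_inv, MulAut.conj_apply, map_mul, inv_inv, mul_assoc,
      mul_inv_rev]
  have e3 : ∀ c d : G, MulAut.conj c * x * (MulAut.conj d * x) = MulAut.conj (c * x d) * x ^ 2 := by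
    intro c d; ext z
    simp only [MulAut.mul_apply, MulAut.conj_apply, map_mul, map_inv, pow_two, mul_assoc,
      mul_inv_rev]
  rw [e1, e2, e2, e3]
  congr 2
  rw [hg]
  have e4 : (x ^ 2) h = x (x h) := by rw [pow_two, MulAut.mul_apply]
  rw [e4, hw1, hb2]
  simp only [map_mul, map_inv, mul_inv_rev, inv_inv]
  group

end Sys

end ChevT
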