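import Pool.Agent.Helper49.Chev.MainC
import Pool.Agent.Helper47.Cos2.Crit2

/-!
Verification of the hypotheses of the sharper criterion for simple groups with root data.
-/

set_option autoImplicit false
set_option linter.unusedSectionVars false

namespace ChevT

open RootPairing CosetT
open scoped Pointwise commutatorElement

/-- a homomorphism from `SL_2` which is invariant under a diagonal twist is trivial -/
theorem tw_fix {L G : Type*} [Field L] [Group G] (f : SL2 L →* G) (hnt : ∃ A, f A ≠ 1) (e : Lˣ)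
    (h : ∀ A, f (tw e (RingEquiv.refl L) A) = f A) : e = 1 := by
  by_contra he
  have he1 : (e : L) - 1 ≠ 0 := by
    intro h0
    apply he
    apply Units.ext
    rw [Units.val_one]
    exact sub_eq_zero.mp h0
  have he2 : ((e⁻¹ : Lˣ) : L) - 1 ≠ 0 := by
    intro h0
    apply he
    have : e⁻¹ = 1 := Units.ext (by rw [Units.val_one]; exact sub_eq_zero.mp h0)
    exact inv_eq_one.mp this
  have hup : ∀ u, f (up u) = 1 := by
    intro u
    have h1 := h (up (u / ((e : L) - 1)))
    rw [tw_up] at h1
    have h2 : (e : L) * (RingEquiv.refl L) (u / ((e : L) - 1)) = u + u / ((e : L) - 1) := by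
      rw [RingEquiv.refl_apply]; field_simp; ring
    rw [h2, up_add, map_mul] at h1
    exact mul_eq_right.mp h1
  have hlo : ∀ u, f (lo u) = 1 := by
    intro u
    have h1 := h (lo (u / (((e⁻¹ : Lˣ) : L) - 1)))
    rw [tw_lo] at h1
    have h2 : ((e⁻¹ : Lˣ) : L) * (RingEquiv.refl L) (u / (((e⁻¹ : Lˣ) : L) - 1)) =
        u + u / (((e⁻¹ : Lˣ) : L) - 1) := by
      rw [RingEquiv.refl_apply]
      have h3 : ((e⁻¹ : Lˣ) : L) = (((e⁻¹ : Lˣ) : L) - 1) + 1 := by ring
      obtain ⟨w, hw⟩ : ∃ w, w = ((e⁻¹ : Lˣ) : L) - 1 := ⟨_, rfl⟩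
      rw [← hw] at h3 he2 ⊢
      rw [h3]
      field_simp
    rw [h2, lo_add, map_mul] at h1
    exact mul_eq_right.mp h1
  obtain ⟨A, hA⟩ := hnt
  apply hA
  have := mem_of_up_lo (f := f) (H := ⊥) (fun t => by rw [Subgroup.mem_bot]; exact hup t)
    (fun t => by rw [Subgroup.mem_bot]; exact hlo t) A
  exact Subgroup.mem_bot.mp this

/-- commuting can be tested on unitriangular matrices -/
theorem comm_of_up_lo {L L' G : Type*} [Field L] [Field L'] [Group G] (f : SL2 L →* G)
    (g : SL2 L' →* G)
    (h1 : ∀ s t, f (up s) * g (up t) = g (up t) * f (up s))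
    (h2 : ∀ s t, f (up s) * g (lo t) = g (lo t) * f (up s))
    (h3 : ∀ s t, f (lo s) * g (up t) = g (up t) * f (lo s))
    (h4 : ∀ s t, f (lo s) * g (lo t) = g (lo t) * f (lo s)) :
    ∀ A B, f A * g B = g B * f A := by
  have key : ∀ z : G, (∀ t, z * g (up t) = g (up t) * z) → (∀ t, z * g (lo t) = g (lo t) * z) →
      ∀ B, z * g B = g B * z := by
    intro z h5 h6 B
    have := mem_of_up_lo (f := g) (H := Subgroup.centralizer {z})
      (fun t => by rw [Subgroup.mem_centralizer_iff]; rintro _ rfl; exact h5 t)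
      (fun t => by rw [Subgroup.mem_centralizer_iff]; rintro _ rfl; exact h6 t) B
    rw [Subgroup.mem_centralizer_iff] at this
    exact this z rfl
  intro A B
  have := mem_of_up_lo (f := f) (H := Subgroup.centralizer {g B})
    (fun t => by
      rw [Subgroup.mem_centralizer_iff]; rintro _ rfl
      exact (key _ (h1 t) (h2 t) B).symm)
    (fun t => by
      rw [Subgroup.mem_centralizer_iff]; rintro _ rfl
      exact (key _ (h3 t) (h4 t) B).symm) A
  rw [Subgroup.mem_centralizer_iff] at this
  exact (this _ rfl).symm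

/-- elements of a finite field with the same power -/
theorem card_zpow {F : Type*} [Field F] [Finite F] {m : ℤ} (hm : m ≠ 0) (S : Finset Fˣ)
    (hS : ∀ a ∈ S, ∀ a' ∈ S, (a / a') ^ m = 1) : S.card ≤ m.natAbs := by
  classical
  have := Fintype.ofFinite F
  rcases S.eq_empty_or_nonempty with h | ⟨a0, h0⟩
  · rw [h]; simp
  · have hne : NeZero m.natAbs := ⟨Int.natAbs_ne_zero.mpr hm⟩
    have h1 : ∀ a ∈ S, a / a0 ∈ rootsOfUnity m.natAbs F := by
      intro a ha
      rw [mem_rootsOfUnity]
      have h2 := hS a ha a0 h0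
      rcases Int.natAbs_eq m with h3 | h3
      · rw [h3, zpow_natCast] at h2; exact h2
      · rw [h3, zpow_neg, zpow_natCast, inv_eq_one] at h2; exact h2
    have h4 : S.card ≤ Nat.card (rootsOfUnity m.natAbs F) := by
      have h5 : Set.InjOn (fun a => a / a0) (S : Set Fˣ) := by
        intro a _ a' _ h
        exact div_left_injective h
      rw [← Finset.card_image_of_injOn h5]
      have h6 : ((Finset.image (fun a => a / a0) S : Finset Fˣ) : Set Fˣ) ⊆
          (rootsOfUnity m.natAbs F : Set Fˣ) := by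
        intro x hx
        rw [Finset.coe_image] at hx
        obtain ⟨a, ha, rfl⟩ := hx
        exact h1 a ha
      have h7 := Nat.card_mono (Set.toFinite _) h6
      rw [Nat.card_coe_set_eq, Set.ncard_coe_finset] at h7
      exact h7
    exact h4.trans (card_rootsOfUnity F m.natAbs)

namespace Sys

variable {G : Type*} [Group G] {I : Type*} {K : I → Type*} [∀ i, Field (K i)] (S : Sys G I K)

/-- forget the nodes with trivial image -/
def restrict (p : I → Prop) (h : ∀ i, ¬ p i → ∀ A, S.φ i A = 1) :
    Sys G {i // p i} (fun i => K i) where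
  φ i := S.φ i
  Up := S.Up
  Um := S.Um
  Vp i := S.Vp i
  Vm i := S.Vm i
  gen H hH g := S.gen H (fun i A => by
    by_cases hp : p i
    · exact hH ⟨i, hp⟩ A
    · rw [h i hp]; exact H.one_mem) g
  up_mem i t := S.up_mem i t
  lo_mem i t := S.lo_mem i t
  Vp_le i := S.Vp_le i
  Vm_le i := S.Vm_le i
  Up_dec i u hu := S.Up_dec i u hu
  Um_dec i u hu := S.Um_dec i u hu
  Vp_norm i A v hv := S.Vp_norm i A v hv
  Vm_norm i A v hv := S.Vm_norm i A v hv
  tor i j s := S.tor i j s
  tor_p j s := S.tor_p j s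
  tor_m j s := S.tor_m j s
  comm i j hij s t := S.comm i j (fun h => hij (Subtype.ext h)) s t

theorem restrict_ty {p : I → Prop} {h : ∀ i, ¬ p i → ∀ A, S.φ i A = 1}
    (hp : ∀ i, p i → ∃ A, S.φ i A ≠ 1) (τ : MulAut G)
    (hτ : ∀ i, S.TyA τ i ∨ S.TyB τ i) (i : {i // p i}) :
    (S.restrict p h).TyA τ i ∨ (S.restrict p h).TyB τ i := by
  rcases hτ i with h1 | ⟨j, hij, c, ρ, hc⟩
  · exact Or.inl h1
  · right
    have hj : p j := by
      by_contra hpj
      obtain ⟨A, hA⟩ := hp i i.2
      apply hA
      have h2 := hc A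
      rw [h j hpj] at h2
      exact (map_eq_one_iff τ τ.injective).mp h2
    exact ⟨⟨j, hj⟩, fun e => hij (congrArg Subtype.val e), c, ρ, hc⟩

/-- connectedness from simplicity -/
theorem conn_of_simple [IsSimpleGroup G] (hc : Subgroup.center G = ⊥)
    (hnt : ∀ i, ∃ A, S.φ i A ≠ 1) (A : Set I) (hA : A.Nonempty) (hA' : A ≠ Set.univ) :
    ∃ i ∈ A, ∃ k, k ∉ A ∧ ¬ S.Cm i k := by
  by_contra hcon
  push Not at hcon
  set N : Subgroup G := Subgroup.closure {g | ∃ i ∈ A, ∃ B, g = S.φ i B} with hN
  have hcomm : ∀ k, k ∉ A → ∀ B, ∀ n ∈ N, n * S.φ k B = S.φ k B * n := by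
    intro k hk B n hn
    have h1 : N ≤ Subgroup.centralizer {S.φ k B} := by
      rw [hN, Subgroup.closure_le]
      rintro _ ⟨i, hi, C, rfl⟩
      rw [SetLike.mem_coe, Subgroup.mem_centralizer_iff]
      rintro _ rfl
      exact (hcon i hi k hk C B).symm
    have h2 := Subgroup.mem_centralizer_iff.mp (h1 hn) _ rfl
    exact h2.symm
  have hnorm : N.Normal := by
    have h1 : ∀ i B, S.φ i B ∈ Subgroup.normalizer (N : Set G) := by
      intro i B
      by_cases hi : i ∈ A
      · apply Subgroup.le_normalizer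
        exact Subgroup.subset_closure ⟨i, hi, B, rfl⟩
      · rw [Subgroup.mem_normalizer_iff]
        intro n
        constructor
        · intro hn
          rw [← hcomm i hi B n hn, mul_inv_cancel_right]
          exact hn
        · intro hn
          have h2 := hcomm i hi B _ hn
          have h3 : S.φ i B * n * (S.φ i B)⁻¹ = n := by
            have h4 : S.φ i B * n * (S.φ i B)⁻¹ * S.φ i B = S.φ i B * n := by group
            rw [h4] at h2
            have h5 : n = S.φ i B * n * (S.φ i B)⁻¹ := mul_left_cancel h2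
            exact h5.symm
          rw [h3] at hn
          exact hn
    have h2 : Subgroup.normalizer (N : Set G) = ⊤ := by
      rw [eq_top_iff]
      intro g _
      exact S.gen _ h1 g
    exact Subgroup.normalizer_eq_top_iff.mp h2
  obtain ⟨i, hi⟩ := hA
  obtain ⟨k, hk⟩ : ∃ k, k ∉ A := by
    by_contra h
    push Not at h
    exact hA' (Set.eq_univ_of_forall h)
  rcases hnorm.eq_bot_or_eq_top with h | h
  · obtain ⟨B, hB⟩ := hnt i
    apply hB
    have h1 : S.φ i B ∈ N := Subgroup.subset_closure ⟨i, hi, B, rfl⟩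
    rw [h] at h1
    exact Subgroup.mem_bot.mp h1
  · obtain ⟨B, hB⟩ := hnt k
    apply hB
    have h1 : S.φ k B ∈ Subgroup.center G := by
      rw [Subgroup.mem_center_iff]
      intro g
      exact hcomm k hk B g (by rw [h]; trivial)
    rw [hc] at h1
    exact Subgroup.mem_bot.mp h1

end Sys

namespace RootData

variable {ι R M N : Type*} [CommRing R] [CharZero R] [AddCommGroup M] [Module R M]
  [AddCommGroup N] [Module R N] {P : RootPairing ι R M N} [P.IsCrystallographic] {b : P.Base}
  {F : Type*} [Field F] {K : ι → Type*} [∀ r, Field (K r)] [∀ r, Algebra F (K r)]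
  {G : Type*} [Group G] (D : RootData P b F K G)

theorem pairing_cast (r s : ι) : P.pairing r s = ((P.pairingIn ℤ r s : ℤ) : R) := by
  rw [← P.algebraMap_pairingIn ℤ]
  simp

/-- orthogonal simple roots: no sums -/
theorem no_sum {i j k : ι} (hi : i ∈ b.support) (hj : j ∈ b.support) (hij : i ≠ j)
    (h0 : P.pairingIn ℤ j i = 0) {p q : ℕ} (hp : 0 < p) (hq : 0 < q)
    (h : P.root k = p • P.root i + q • P.root j) : False := by
  have h1 : P.root (P.reflectionPerm i k) = P.root k - P.pairing k i • P.root i := by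
    rw [P.root_reflectionPerm, P.reflection_apply_root]
  have h2 : P.pairing k i = 2 * (p : R) := by
    rw [← P.root_coroot_eq_pairing, h]
    simp only [map_add, map_nsmul, LinearMap.add_apply, LinearMap.smul_apply]
    rw [P.root_coroot_eq_pairing, P.root_coroot_eq_pairing, P.pairing_same,
      pairing_cast (P := P) j i, h0]
    simp [mul_comm]
  apply no_mixed b (k := P.reflectionPerm i k) (p := (q : ℤ)) (q := (p : ℤ)) hj hi hij.symm
    (by exact_mod_cast hq) (by exact_mod_cast hp)
  rw [h1, h2, h]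
  rw [natCast_zsmul, natCast_zsmul, ← Nat.cast_smul_eq_nsmul R p, ← Nat.cast_smul_eq_nsmul R q]
  module

/-- orthogonal simple roots give commuting `SL_2`'s -/
theorem comm_orth {i j : ι} (hi : i ∈ b.support) (hj : j ∈ b.support) (hij : i ≠ j)
    (h0 : P.pairingIn ℤ j i = 0) : ∀ A B, D.φ i A * D.φ j B = D.φ j B * D.φ i A := by
  have hcl : ∀ r s : ι, (∀ k, ∀ p q : ℕ, 0 < p → 0 < q →
      P.root k = p • P.root r + q • P.root s → False) →
      P.root s ≠ P.root r → P.root s ≠ -P.root r → ∀ t u,
      D.φ r (up t) * D.φ s (up u) = D.φ s (up u) * D.φ r (up t) := by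
    intro r s hk h1 h2 t u
    have h := D.comm r s h1 h2 t u
    have h3 : {g | ∃ k, ∃ v : K k, (∃ p q : ℕ, 0 < p ∧ 0 < q ∧
        P.root k = p • P.root r + q • P.root s) ∧ g = D.φ k (up v)} = ∅ := by
      rw [Set.eq_empty_iff_forall_notMem]
      rintro g ⟨k, v, ⟨p, q, hp, hq, hk'⟩, -⟩
      exact hk k p q hp hq hk'
    rw [h3, Subgroup.closure_empty, Subgroup.mem_bot] at h
    rw [mul_inv_eq_one, mul_inv_eq_iff_eq_mul] at h
    exact h
  obtain ⟨i', hi'⟩ := exists_neg (P := P) i
  obtain ⟨j', hj'⟩ := exists_neg (P := P) j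
  obtain ⟨e, he⟩ := D.lo_eq hi'
  obtain ⟨e', he'⟩ := D.lo_eq hj'
  have hne1 : P.root j ≠ P.root i := fun h => hij (P.root.injective h).symm
  have hne2 : P.root j ≠ -P.root i := fun h => b.root_ne_neg_of_ne hj hi hij.symm h
  apply comm_of_up_lo
  · intro s t
    apply hcl i j _ hne1 hne2
    intro k p q hp hq h
    exact no_sum hi hj hij h0 hp hq h
  · intro s t
    exact D.comm_simple hi hj hij s t
  · intro s t
    exact (D.comm_simple hj hi hij.symm t s).symm
  · intro s t
    rw [he, he']
    apply hcl i' j'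
    · intro k p q hp hq h
      obtain ⟨k', hk'⟩ := exists_neg (P := P) k
      apply no_sum (k := k') hi hj hij h0 hp hq
      rw [hk', h, hi', hj', smul_neg, smul_neg, neg_add, neg_neg, neg_neg]
    · rw [hi', hj']
      intro h
      exact hne1 (neg_injective h)
    · rw [hi', hj', neg_neg]
      intro h
      apply hne2
      rw [← h, neg_neg]

variable [Finite ι] [IsDomain R] [P.IsReduced] [Module.IsTorsionFree R M]

/-- two bad torus elements differ by an element centralising the `SL_2` -/
theorem bad_div {i k : ι} (f : G) (X : SL2 (K k) → G) (a a' : Fˣ)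
    (hnt : ∃ A, D.φ k A ≠ 1)
    (h : ∀ A, D.φ i (dg (bu F (K i) a)) * f * X A * (D.φ i (dg (bu F (K i) a)) * f)⁻¹ = D.φ k A)
    (h' : ∀ A, D.φ i (dg (bu F (K i) a')) * f * X A * (D.φ i (dg (bu F (K i) a')) * f)⁻¹ =
      D.φ k A) : (a / a') ^ (P.pairingIn ℤ k i) = 1 := by
  have h1 : ∀ A, D.φ i (dg (bu F (K i) (a / a'))) * D.φ k A *
      (D.φ i (dg (bu F (K i) (a / a'))))⁻¹ = D.φ k A := by
    intro A
    have e : D.φ i (dg (bu F (K i) (a / a'))) =
        D.φ i (dg (bu F (K i) a)) * (D.φ i (dg (bu F (K i) a')))⁻¹ := by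
      rw [← map_inv, ← dg_inv, ← map_mul, ← dg_mul, ← map_inv (bu F (K i)), ← map_mul,
        div_eq_mul_inv]
    rw [e]
    nth_rewrite 1 [← h' A]
    rw [← h A]
    group
  have h2 := D.torus_base i k (a / a')
  have h3 : bu F (K k) ((a / a') ^ P.pairingIn ℤ k i) = 1 := by
    apply tw_fix (D.φ k) hnt
    intro A
    exact (h2 A).symm.trans (h1 A)
  have h4 : ((bu F (K k) ((a / a') ^ P.pairingIn ℤ k i) : (K k)ˣ) : K k) = 1 := by
    rw [h3]; rfl
  rw [bu_coe] at h4
  apply Units.ext
  rw [Units.val_one]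
  apply (algebraMap F (K k)).injective
  rw [map_one]
  exact h4

/-- the nodes with non trivial `SL_2` -/
def Nt (i : b.support) : Prop := ∃ A, D.φ i A ≠ 1

/-- the system restricted to the non trivial nodes -/
noncomputable def sysN : Sys G {i : b.support // D.Nt i} (fun i => K i) :=
  D.toSys.restrict D.Nt (fun i h A => by
    unfold Nt at h
    push Not at h
    exact h A)

open Classical in
/-- genericity from counting -/
theorem gen_of_card [Finite F] (τ : MulAut G)
    (hcard : ∀ i ∈ b.support, ∑ k ∈ b.support, |P.pairingIn ℤ k i| + 2 < Nat.card Fˣ) :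
    D.sysN.Gen τ := by
  have := Fintype.ofFinite F
  rintro ⟨⟨i, hi⟩, hpi⟩ f hf g hg
  -- bad elements
  set Bs : b.support → Finset Fˣ := fun k => Finset.univ.filter (fun a =>
    P.pairingIn ℤ k i ≠ 0 ∧ (∃ A, D.φ k A ≠ 1) ∧
    ∀ A, D.φ i (dg (bu F (K i) a)) * f * τ (D.φ k A) * (D.φ i (dg (bu F (K i) a)) * f)⁻¹ =
      D.φ k A) with hBs
  set B' : Finset Fˣ := Finset.univ.filter (fun a =>
    ∀ A, D.φ i (dg (bu F (K i) a)) * g * τ (D.φ i A) * (D.φ i (dg (bu F (K i) a)) * g)⁻¹ =
      D.φ i A) with hB'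
  have h1 : ∀ k : b.support, (Bs k).card ≤ (P.pairingIn ℤ k i).natAbs := by
    intro k
    by_cases h0 : P.pairingIn ℤ k i = 0
    · have : Bs k = ∅ := by simp [hBs, h0]
      rw [this]; simp
    · apply card_zpow h0
      intro a ha a' ha'
      simp only [hBs, Finset.mem_filter, Finset.mem_univ, true_and] at ha ha'
      exact D.bad_div f (fun A => τ (D.φ k A)) a a' ha.2.1 ha.2.2 ha'.2.2
  have h2 : B'.card ≤ 2 := by
    have h3 : P.pairingIn ℤ i i = 2 := by simp
    have h4 := card_zpow (F := F) (m := P.pairingIn ℤ i i) (by rw [h3]; norm_num) B' (by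
      intro a ha a' ha'
      simp only [hB', Finset.mem_filter, Finset.mem_univ, true_and] at ha ha'
      exact D.bad_div g (fun A => τ (D.φ i A)) a a' hpi ha ha')
    rw [h3] at h4
    exact h4
  have h3 : ((Finset.univ.biUnion Bs ∪ B').card : ℤ) < Nat.card Fˣ := by
    have h5 : (Finset.univ.biUnion Bs ∪ B').card ≤
        ∑ k : b.support, (P.pairingIn ℤ (k : ι) i).natAbs + 2 :=
      (Finset.card_union_le _ _).trans (Nat.add_le_add (Finset.card_biUnion_le.trans
        (Finset.sum_le_sum fun k _ => h1 k)) h2)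
    have h6 : ((∑ k : b.support, (P.pairingIn ℤ (k : ι) i).natAbs + 2 : ℕ) : ℤ) =
        ∑ k ∈ b.support, |P.pairingIn ℤ k i| + 2 := by
      push_cast
      congr 1
      rw [b.support.sum_subtype (p := (· ∈ b.support)) (by simp) (F := inferInstance)]
    have h7 := hcard i hi
    rw [← h6] at h7
    exact lt_of_le_of_lt (by exact_mod_cast h5) h7
  obtain ⟨a, ha⟩ : ∃ a, a ∉ Finset.univ.biUnion Bs ∪ B' := by
    by_contra hcon
    push Not at hcon
    have h4 : Finset.univ ⊆ Finset.univ.biUnion Bs ∪ B' := fun x _ => hcon x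
    have h5 := Finset.card_le_card h4
    rw [Finset.card_univ, ← Nat.card_eq_fintype_card] at h5
    have h6 : ((Nat.card Fˣ : ℕ) : ℤ) ≤ (Finset.univ.biUnion Bs ∪ B').card := by
      exact_mod_cast h5
    omega
  rw [Finset.mem_union, not_or, Finset.mem_biUnion] at ha
  refine ⟨bu F (K i) a, ?_, ?_⟩
  · rintro ⟨⟨k, hk⟩, hpk⟩ hcm hZ
    apply ha.1
    refine ⟨⟨k, hk⟩, Finset.mem_univ _, ?_⟩
    simp only [hBs, Finset.mem_filter, Finset.mem_univ, true_and]
    refine ⟨?_, hpk, hZ⟩
    intro h0
    by_cases hik : i = k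
    · subst hik
      have h3 : P.pairingIn ℤ i i = 2 := by simp
      rw [h3] at h0
      norm_num at h0
    · exact hcm (D.comm_orth hi hk hik h0)
  · intro hZ
    apply ha.2
    simp only [hB', Finset.mem_filter, Finset.mem_univ, true_and]
    exact hZ

include D in
/-- the centre of a simple group with root data is trivial -/
theorem center_bot [IsSimpleGroup G] (hF : ∃ a : Fˣ, a ^ 2 ≠ 1) : Subgroup.center G = ⊥ := by
  rcases (inferInstance : (Subgroup.center G).Normal).eq_bot_or_eq_top with h | h
  · exact h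
  · exfalso
    have hcomm : ∀ x y : G, x * y = y * x := by
      intro x y
      have h1 : y ∈ Subgroup.center G := by rw [h]; trivial
      exact Subgroup.mem_center_iff.mp h1 x
    have htriv : ∀ i ∈ b.support, ∀ A, D.φ i A = 1 := by
      intro i hi
      by_contra hcon
      push Not at hcon
      obtain ⟨a, ha⟩ := hF
      have h2 := D.torus_base i i a
      have h3 : bu F (K i) (a ^ P.pairingIn ℤ i i) = 1 := by
        apply tw_fix (D.φ i) hcon
        intro A
        refine (h2 A).symm.trans ?_
        rw [hcomm, inv_mul_cancel_left]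
      have h5 : P.pairingIn ℤ i i = 2 := by simp
      rw [h5] at h3
      apply ha
      have h4 : ((bu F (K i) (a ^ (2 : ℤ)) : (K i)ˣ) : K i) = 1 := by rw [h3]; rfl
      rw [bu_coe] at h4
      apply Units.ext
      rw [Units.val_one]
      apply (algebraMap F (K i)).injective
      rw [map_one]
      exact_mod_cast h4
    have h2 := D.gen ⊥ (fun i hi A => by rw [Subgroup.mem_bot]; exact htriv i hi A)
    exact (bot_ne_top (α := Subgroup G)) h2

/-- the unipotent subgroups contain no non trivial normal subgroup -/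
theorem core_trivial [IsSimpleGroup G] (hc : Subgroup.center G = ⊥) (w : ι → ℤ) (z : G)
    (hz : ∀ h, h * z * h⁻¹ ∈ D.U w 1) : z = 1 := by
  have h1 : Subgroup.normalClosure {z} ≤ D.U w 1 := by
    rw [Subgroup.normalClosure, Subgroup.closure_le]
    intro x hx
    rw [Group.conjugatesOfSet, Set.mem_iUnion₂] at hx
    obtain ⟨y, hy, hx⟩ := hx
    rw [Set.mem_singleton_iff] at hy
    subst hy
    rw [conjugatesOf, Set.mem_ofPred_eq, isConj_iff] at hx
    obtain ⟨c, rfl⟩ := hx
    exact hz c
  rcases (Subgroup.normalClosure_normal (s := {z})).eq_bot_or_eq_top with h | h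
  · have h2 : z ∈ Subgroup.normalClosure {z} := Subgroup.subset_normalClosure rfl
    rw [h] at h2
    exact Subgroup.mem_bot.mp h2
  · exfalso
    rw [h, top_le_iff] at h1
    have hperf : commutator G = ⊤ := by
      rcases (inferInstance : (commutator G).Normal).eq_bot_or_eq_top with h2 | h2
      · exfalso
        have h3 : Subgroup.center G = ⊤ := by
          rw [commutator_def] at h2
          rw [eq_top_iff]
          intro x _
          rw [Subgroup.mem_center_iff]
          intro y
          have h4 : ⁅y, x⁆ ∈ ⁅(⊤ : Subgroup G), (⊤ : Subgroup G)⁆ :=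
            Subgroup.commutator_mem_commutator trivial trivial
          rw [h2, Subgroup.mem_bot] at h4
          exact commutatorElement_eq_one_iff_mul_comm.mp h4
        rw [hc] at h3
        exact (bot_ne_top (α := Subgroup G)) h3
      · exact h2
    have key : ∀ n : ℕ, D.U w (n + 1) = ⊤ := by
      intro n
      induction n with
      | zero => simpa using h1
      | succ n ih =>
        rw [← top_le_iff, ← hperf, commutator_def, Subgroup.commutator_le]
        intro x _ y _
        have h2 := D.U_comm (w := w) (m := n + 1) (by omega) x (by rw [ih]; trivial) y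
          (by rw [ih]; trivial)
        have h3 : ((n + 1 : ℕ) : ℤ) + 1 = (n : ℤ) + 1 + 1 := by push_cast; ring
        rw [h3, commutatorElement_def]
        exact h2
    obtain ⟨m0, hm0⟩ := D.U_bot w
    have h2 := hm0 (m0.toNat + 1) (by omega)
    have h3 := key m0.toNat
    rw [h2] at h3
    exact (bot_ne_top (α := Subgroup G)) h3

end RootData

end ChevT
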