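import Pool.Agent.Helper49.Chev.Std
import Pool.Agent.Helper47.Cos2.Nodes

/-!
The main theorem for standard automorphisms of simple groups with root data, including field
automorphisms of order at most two.
-/

set_option autoImplicit false
set_option linter.unusedSectionVars false

namespace ChevT

open RootPairing CosetT
open scoped Pointwise Matrix

namespace RootData

variable {ι R M N : Type*} [CommRing R] [CharZero R] [AddCommGroup M] [Module R M]
  [AddCommGroup N] [Module R N] {P : RootPairing ι R M N} [P.IsCrystallographic] {b : P.Base}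
  {F : Type*} [Field F] {K : ι → Type*} [∀ r, Field (K r)] [∀ r, Algebra F (K r)]
  {G : Type*} [Group G] (D : RootData P b F K G)

/-- torus elements with prescribed exponents, inverted by suitable elements -/
theorem exists_torus2 [Finite ι] [IsDomain R] [P.IsReduced] [Module.IsTorsionFree R M]
    (ν : Fˣ) (m : b.support → ℕ) (ω : Equiv.Perm b.support) (hm : ∀ j, m (ω j) = m j) :
    ∃ t : G, (∀ r A, t * D.φ r A * t⁻¹ =
      D.φ r (tw (bu F (K r) (ν ^ (∑ j, (m j : ℤ) * P.pairingIn ℤ r j))) (RingEquiv.refl _) A)) ∧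
      ∀ n : G, (∀ (j : b.support) (a : Fˣ), n * D.φ j (dg (bu F (K j) a)) * n⁻¹ =
        (D.φ (ω j) (dg (bu F (K (ω j)) a)))⁻¹) → n * t * n⁻¹ = t⁻¹ := by
  classical
  set X : Set G := {g | ∃ i : b.support, ∃ s : (K i)ˣ, g = D.φ i (dg s)} with hX
  have hcomm : ∀ x ∈ X, ∀ y ∈ X, x * y = y * x := by
    rintro _ ⟨i, s, rfl⟩ _ ⟨j, s', rfl⟩
    exact D.toSys.dg_comm i j s s'
  have hc := Subgroup.isMulCommutative_closure hcomm
  let : CommGroup (Subgroup.closure X) :=
    { (inferInstance : Group (Subgroup.closure X)) with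
      mul_comm := fun a b => hc.is_comm.comm a b }
  set T : b.support → Subgroup.closure X := fun j =>
    ⟨D.φ j (dg (bu F (K j) (ν ^ (m j)))), Subgroup.subset_closure ⟨j, _, rfl⟩⟩ with hT
  refine ⟨((∏ j, T j : Subgroup.closure X) : G), ?_, ?_⟩
  · have key : ∀ s : Finset b.support, ∀ r A,
        ((∏ j ∈ s, T j : Subgroup.closure X) : G) * D.φ r A *
          ((∏ j ∈ s, T j : Subgroup.closure X) : G)⁻¹ =
        D.φ r (tw (bu F (K r) (ν ^ (∑ j ∈ s, (m j : ℤ) * P.pairingIn ℤ r j)))
          (RingEquiv.refl _) A) := by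
      intro s
      induction s using Finset.induction_on with
      | empty =>
        intro r A
        rw [Finset.sum_empty, zpow_zero, map_one, tw_one, Finset.prod_empty, Subgroup.coe_one]
        simp
      | insert j s hj ih =>
        intro r A
        rw [Finset.prod_insert hj, Subgroup.coe_mul]
        have e : ∀ u v w : G, u * v * w * (u * v)⁻¹ = u * (v * w * v⁻¹) * u⁻¹ := by
          intro u v w; group
        rw [e, ih]
        have h2 := D.torus_base j r (ν ^ (m j))
        have h3 := h2 (tw (bu F (K r) (ν ^ (∑ j ∈ s, (m j : ℤ) * P.pairingIn ℤ r j)))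
          (RingEquiv.refl _) A)
        refine h3.trans ?_
        rw [tw_tw, Finset.sum_insert hj, zpow_add, zpow_mul, zpow_natCast, map_mul]
        rfl
    exact key Finset.univ
  · intro n hn
    have key : ∀ s : Finset b.support,
        n * ((∏ j ∈ s, T j : Subgroup.closure X) : G) * n⁻¹ =
        ((∏ j ∈ s, T (ω j) : Subgroup.closure X) : G)⁻¹ := by
      intro s
      induction s using Finset.induction_on with
      | empty => simp
      | insert j s hj ih =>
        rw [Finset.prod_insert hj, Finset.prod_insert hj, mul_comm (T (ω j)), Subgroup.coe_mul,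
          Subgroup.coe_mul, mul_inv_rev, ← ih]
        have h1 : n * (T j : G) * n⁻¹ = ((T (ω j) : Subgroup.closure X) : G)⁻¹ := by
          have := hn j (ν ^ (m j))
          simp only [hT]
          rw [hm j]
          exact this
        rw [← h1]
        group
    have h1 := key Finset.univ
    rw [Equiv.prod_comp ω T] at h1
    exact h1

variable {α : MulAut G} {π : Equiv.Perm ι} {θ : M →+ M} {σ : F ≃+* F}
  {c : ∀ r, (K (π r))ˣ} {σr : ∀ r, K r ≃+* K (π r)}

variable [Finite ι] [IsDomain R] [P.IsReduced] [Module.IsTorsionFree R M]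

/-- the squares of the automorphisms `α t` permute the simple `SL_2`'s -/
theorem ty_sq (hα : ∀ r A, α (D.φ r A) = D.φ (π r) (tw (c r) (σr r) A))
    (hσr : ∀ r a, σr r (algebraMap F (K r) a) = algebraMap F (K (π r)) (σ a))
    (hs : ∀ i ∈ b.support, π i ∈ b.support)
    (ν : Fˣ) (e : ι → ℤ) (t : G) (ht : ∀ r A, t * D.φ r A * t⁻¹ =
        D.φ r (tw (bu F (K r) (ν ^ e r)) (RingEquiv.refl _) A)) (i : b.support) :
    D.toSys.TyA ((α * MulAut.conj t) ^ 2) i ∨ D.toSys.TyB ((α * MulAut.conj t) ^ 2) i := by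
  by_cases h : π (π i) = i
  · left
    obtain ⟨C, ρ, h1, h2⟩ := D.pow_form hα hσr 2 (i : ι) (i : ι) h
    exact ⟨_, ρ, h2 ν e t ht⟩
  · right
    obtain ⟨C, ρ, h1, h2⟩ := D.pow_form hα hσr 2 (i : ι) (π (π i)) rfl
    refine ⟨⟨π (π i), hs _ (hs _ i.2)⟩, ?_, _, ρ, h2 ν e t ht⟩
    intro h2
    exact h (congrArg Subtype.val h2).symm

include D in
/-- a large field has an element whose square is not one -/
theorem exists_sq_ne [IsSimpleGroup G] [Finite F]
    (hF : ∀ i ∈ b.support, ∑ k ∈ b.support, |P.pairingIn ℤ k i| + 2 < Nat.card Fˣ) :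
    ∃ a : Fˣ, a ^ 2 ≠ 1 := by
  classical
  have hne : ∃ i, i ∈ b.support := by
    by_contra hcon
    push Not at hcon
    have h1 := D.gen ⊥ (fun i hi => absurd hi (hcon i))
    exact (bot_ne_top (α := Subgroup G)) h1
  obtain ⟨i, hi⟩ := hne
  by_contra hcon
  push Not at hcon
  have := Fintype.ofFinite F
  have h1 := card_zpow (F := F) (m := 2) (by norm_num) Finset.univ (by
    intro a _ a' _
    exact_mod_cast hcon (a / a'))
  have h2 := hF i hi
  have h3 : |P.pairingIn ℤ i i| ≤ ∑ k ∈ b.support, |P.pairingIn ℤ k i| :=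
    Finset.single_le_sum (f := fun k => |P.pairingIn ℤ k i|) (fun k _ => abs_nonneg _) hi
  have h4 : P.pairingIn ℤ i i = 2 := by simp
  rw [h4] at h3
  rw [Finset.card_univ, ← Nat.card_eq_fintype_card] at h1
  have h5 : ((Nat.card Fˣ : ℕ) : ℤ) ≤ 2 := by exact_mod_cast h1
  have h6 : |(2 : ℤ)| = 2 := by norm_num
  omega

/-- the result for one element -/
theorem good2 [IsSimpleGroup G] [Finite F] [∀ r, Finite (K r)]
    (hα : ∀ r A, α (D.φ r A) = D.φ (π r) (tw (c r) (σr r) A))
    (hσr : ∀ r a, σr r (algebraMap F (K r) a) = algebraMap F (K (π r)) (σ a))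
    (hπ : ∀ r, P.root (π r) = θ (P.root r)) (hs : ∀ i ∈ b.support, π i ∈ b.support)
    (hF : ∀ i ∈ b.support, ∑ k ∈ b.support, |P.pairingIn ℤ k i| + 2 < Nat.card Fˣ)
    (ν : Fˣ) (e : ι → ℤ) (t : G) (ht' : ∀ r A, t * D.φ r A * t⁻¹ =
        D.φ r (tw (bu F (K r) (ν ^ e r)) (RingEquiv.refl _) A))
    (L : ℕ) (hgood : ∀ r, 1 ≤ ht b r → ∃ (C : (K r)ˣ) (ρ : K r ≃+* K r),
      (∀ A, ((α * MulAut.conj t) ^ L) (D.φ r A) = D.φ r (tw C ρ A)) ∧
      ∀ z : (K r)ˣ, (C : K r) * ρ z ≠ z) :
    ∀ y ∈ coset ((α * MulAut.conj t) ^ 2), y ≠ 1 → ∃ u v : G,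
      y = (MulAut.conj u * (α * MulAut.conj t) * (MulAut.conj u)⁻¹) *
      (MulAut.conj v * (α * MulAut.conj t) * (MulAut.conj v)⁻¹) := by
  set x := α * MulAut.conj t with hxdef
  -- the action of `x` on root elements
  have hx : ∀ r A, x (D.φ r A) = D.φ (π r) (tw (c r * Units.map (σr r : K r →* K (π r))
      (bu F (K r) (ν ^ e r))) (σr r) A) := by
    intro r A
    rw [hxdef, MulAut.mul_apply, MulAut.conj_apply, ht', hα, tw_comp]
    have e1 : (RingEquiv.refl (K r)).trans (σr r) = σr r := by ext; rfl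
    rw [e1]
  have hx1 : ∀ r z, ∃ z', x (D.x r z) = D.x (π r) z' := by
    intro r z
    have h := hx r (up z)
    rw [tw_up] at h
    exact ⟨_, h⟩
  have hlang1 : ∀ r, 1 ≤ ht b r → ∀ z, ∃ y y' : K r, ∃ L : ℕ, (x ^ L) (D.x r y) = D.x r y' ∧
      y - y' = z := by
    intro r hr z
    obtain ⟨C, ρ, h1, h2⟩ := hgood r hr
    obtain ⟨y, hy⟩ := surj_of_ne ρ C h2 z
    refine ⟨y, _, L, ?_, hy⟩
    have h3 := h1 (up y)
    rw [tw_up] at h3
    exact h3
  have hlang2 : ∀ r, ¬ 1 ≤ ht b r → ∀ z, ∃ y y' : K r, ∃ L : ℕ, (x ^ L) (D.x r y) = D.x r y' ∧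
      y - y' = z := by
    intro r hr z
    obtain ⟨s, hs1, hs2⟩ := exists_pos_neg (b := b) r hr
    obtain ⟨C, ρ, h1, h2⟩ := hgood s hs2
    obtain ⟨f, hf⟩ := D.lo_eq hs1
    obtain ⟨y, hy⟩ := surj_of_ne ρ C⁻¹ (fun w h => by
      apply h2 w⁻¹
      have h5 := congrArg (fun z => z⁻¹) h
      simp only [mul_inv, Units.val_inv_eq_inv_val, inv_inv] at h5
      rw [Units.val_inv_eq_inv_val, map_inv₀]
      exact h5) (f.symm z)
    refine ⟨f y, f (((C⁻¹ : (K s)ˣ) : K s) * ρ y), L, ?_, ?_⟩
    · have h3 := h1 (lo y)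
      rw [tw_lo, hf, hf] at h3
      exact h3
    · rw [← map_sub, hy, RingEquiv.apply_symm_apply]
  have hw1 : ∀ r, wt b 1 (π r) = wt b 1 r := ht_perm b hπ hs
  have hw2 : ∀ r, wt b (-1) (π r) = wt b (-1) r := fun r => by
    rw [wt_neg_w, wt_neg_w, hw1]
  have hc := D.center_bot (D.exists_sq_ne hF)
  apply D.sysN.criterion2 x (fun i => Sys.restrict_ty (S := D.toSys) (fun i hi => hi) (x ^ 2)
    (D.ty_sq hα hσr hs ν e t ht') i)
  · exact D.map_U hx1 hw1 1
  · -- the inverse
    intro u hu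
    refine Subgroup.closure_induction (p := fun u _ => x⁻¹ u ∈ D.U 1 1) ?_ ?_ ?_ ?_ hu
    · rintro _ ⟨r, z, hr, rfl⟩
      obtain ⟨r0, rfl⟩ := π.surjective r
      set C := c r0 * Units.map (σr r0 : K r0 →* K (π r0)) (bu F (K r0) (ν ^ e r0)) with hC
      have h1 : x (D.x r0 ((σr r0).symm (((C⁻¹ : (K (π r0))ˣ) : K (π r0)) * z))) =
          D.x (π r0) z := by
        refine (hx r0 (up _)).trans ?_
        rw [tw_up, RingEquiv.apply_symm_apply, ← hC, ← mul_assoc, ← Units.val_mul,
          mul_inv_cancel, Units.val_one, one_mul]; rfl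
      rw [← h1, MulAut.inv_apply_self]
      apply D.x_mem_U
      rw [← hw1]
      exact hr
    · rw [map_one]; exact Subgroup.one_mem _
    · intro a c _ _ ha hc
      rw [map_mul]; exact Subgroup.mul_mem _ ha hc
    · intro a _ ha
      rw [map_inv]; exact Subgroup.inv_mem _ ha
  · exact D.lang hx1 hw1 (fun r hr => hlang1 r hr)
  · refine D.lang hx1 hw2 (fun r hr => hlang2 r ?_)
    rw [wt_neg_w] at hr
    unfold ht; omega
  · exact D.gen_of_card (x ^ 2) hF
  · exact fun A h1 h2 => D.sysN.conn_of_simple hc (fun i => i.2) A h1 h2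
  · exact D.core_trivial hc (-1)
  · exact D.core_trivial hc 1

end RootData

/-- the sums of the Cartan integers over a `π`-orbit and the orbit of a diagram symmetry -/
theorem exists_orb_ne {ι R M N : Type*} [CommRing R] [CharZero R] [AddCommGroup M] [Module R M]
    [AddCommGroup N] [Module R N] {P : RootPairing ι R M N} (b : P.Base) [P.IsCrystallographic]
    [Finite ι] [IsDomain R] [P.IsRootSystem] {π : Equiv.Perm ι} {θ : M →+ M}
    (hπ : ∀ r, P.root (π r) = θ (P.root r))
    (hs : ∀ i ∈ b.support, π i ∈ b.support) {L : ℕ} (hL : 0 < L)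
    (ω : Equiv.Perm b.support)
    (hω : ∀ i j : b.support, P.pairingIn ℤ (ω i) (ω j) = P.pairingIn ℤ i j)
    {n : ℕ} (hn : 0 < n) (r : ι) :
    ∃ j : b.support, ∑ l ∈ Finset.range n, ∑ k ∈ Finset.range L,
      P.pairingIn ℤ (π^[k] r) ((ω ^ l)⁻¹ j : b.support) ≠ 0 := by
  classical
  by_contra hcon
  push Not at hcon
  have hωl : ∀ (l : ℕ) (i j : b.support),
      P.pairingIn ℤ ((ω ^ l) i : b.support) ((ω ^ l) j : b.support) = P.pairingIn ℤ i j := by
    intro l
    induction l with
    | zero => intro i j; rfl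
    | succ l ih =>
      intro i j
      rw [pow_succ, Equiv.Perm.mul_apply, Equiv.Perm.mul_apply, ih, hω]
  set m : b.support → ℤ := fun i => ∑ k ∈ Finset.range L, coef b (π^[k] r) i with hm
  set m' : b.support → ℤ := fun i => ∑ l ∈ Finset.range n, m ((ω ^ l)⁻¹ i) with hm'
  have h0 : ∀ j : b.support, (m ᵥ* b.cartanMatrix) j =
      ∑ k ∈ Finset.range L, P.pairingIn ℤ (π^[k] r) j := by
    intro j
    rw [Matrix.vecMul_eq_sum, Finset.sum_apply]
    simp only [hm, Pi.smul_apply, smul_eq_mul, Base.cartanMatrix, Base.cartanMatrixIn_def,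
      Finset.sum_mul]
    rw [Finset.sum_comm]
    refine Finset.sum_congr rfl fun k _ => ?_
    rw [pairingIn_eq_sum b, b.support.sum_subtype (p := (· ∈ b.support)) (by simp)
      (F := inferInstance)]
  have h1 : m' ᵥ* b.cartanMatrix = 0 := by
    funext j
    rw [Pi.zero_apply, ← hcon j]
    simp_rw [← h0]
    rw [Matrix.vecMul_eq_sum, Finset.sum_apply]
    simp only [hm', Pi.smul_apply, smul_eq_mul, Finset.sum_mul]
    rw [Finset.sum_comm]
    refine Finset.sum_congr rfl fun l _ => ?_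
    rw [Matrix.vecMul_eq_sum, Finset.sum_apply]
    simp only [Pi.smul_apply, smul_eq_mul]
    rw [← Equiv.sum_comp (ω ^ l)]
    refine Finset.sum_congr rfl fun i _ => ?_
    have e1 : (ω ^ l)⁻¹ ((ω ^ l) i) = i := by simp
    have e2 : (ω ^ l) ((ω ^ l)⁻¹ j) = j := by simp
    rw [e1]
    congr 1
    simp only [Base.cartanMatrix, Base.cartanMatrixIn_def]
    rw [← hωl l i ((ω ^ l)⁻¹ j), e2]
  have h2 : Function.Injective fun v : b.support → ℤ => v ᵥ* b.cartanMatrix := by
    rw [Matrix.vecMul_injective_iff]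
    exact Matrix.linearIndependent_rows_of_det_ne_zero
      (Matrix.nondegenerate_iff_det_ne_zero.1 b.cartanMatrix_nondegenerate)
  have h3 : m' = 0 := h2 (by simp [h1])
  have h4 : ∑ i : b.support, m i = L * ht b r := by
    simp only [hm]
    rw [Finset.sum_comm]
    have : ∀ k ∈ Finset.range L, ∑ i : b.support, coef b (π^[k] r) i = ht b r := by
      intro k _
      rw [← ht_iter b hπ hs k r]
      unfold ht wt
      rw [b.support.sum_subtype (p := (· ∈ b.support)) (by simp) (F := inferInstance)]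
      simp
    rw [Finset.sum_congr rfl this]
    simp
  have h7 : ∑ i : b.support, m' i = n * (L * ht b r) := by
    simp only [hm']
    rw [Finset.sum_comm]
    have : ∀ l ∈ Finset.range n, ∑ i : b.support, m ((ω ^ l)⁻¹ i) = L * ht b r := by
      intro l _
      rw [Equiv.sum_comp (ω ^ l)⁻¹ m, h4]
    rw [Finset.sum_congr rfl this]
    simp
  rw [h3] at h7
  simp only [Pi.zero_apply, Finset.sum_const_zero] at h7
  have h5 := ht_ne b r
  have h6 : (L : ℤ) ≠ 0 := by exact_mod_cast hL.ne'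
  have h8 : (n : ℤ) ≠ 0 := by exact_mod_cast hn.ne'
  exact mul_ne_zero h8 (mul_ne_zero h6 h5) h7.symm

/-- the sum of the Cartan integers of the simple roots is at most half of the sum over all roots -/
theorem simple_sum_le {ι R M N : Type*} [CommRing R] [CharZero R] [AddCommGroup M] [Module R M]
    [AddCommGroup N] [Module R N] {P : RootPairing ι R M N} (b : P.Base) [P.IsCrystallographic]
    [Fintype ι] (d : ι → ℕ) (hd : ∀ r, 1 ≤ d r) (j : ι) :
    2 * ∑ k ∈ b.support, |P.pairingIn ℤ k j| ≤ ∑ r, d r * |P.pairingIn ℤ r j| := by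
  classical
  have hrr : ∀ s, P.root (P.reflectionPerm s s) = -P.root s := by intro s; simp
  have hneg : ∀ s, |P.pairingIn ℤ (P.reflectionPerm s s) j| = |P.pairingIn ℤ s j| := by
    intro s
    have : P.pairingIn ℤ (P.reflectionPerm s s) j = -P.pairingIn ℤ s j := by
      apply FaithfulSMul.algebraMap_injective ℤ R
      rw [map_neg, P.algebraMap_pairingIn, P.algebraMap_pairingIn]
      rw [← P.root_coroot_eq_pairing, ← P.root_coroot_eq_pairing, hrr, map_neg,
        LinearMap.neg_apply]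
    rw [this, abs_neg]
  have hinj : Set.InjOn (fun s => P.reflectionPerm s s) (b.support : Set ι) := by
    intro s _ s' _ h
    simp only at h
    apply P.root.injective
    have h2 := congrArg P.root h
    rw [hrr, hrr] at h2
    exact neg_injective h2
  have hdisj : Disjoint b.support (b.support.image (fun s => P.reflectionPerm s s)) := by
    rw [Finset.disjoint_left]
    intro s hs hs'
    rw [Finset.mem_image] at hs'
    obtain ⟨s', hs1, hs2⟩ := hs'
    have h1 := ht_simple b hs
    have h2 := ht_simple b hs1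
    have h3 := wt_neg b 1 (hrr s')
    rw [hs2] at h3
    unfold ht at h1 h2
    omega
  have h1 : ∑ k ∈ b.support.image (fun s => P.reflectionPerm s s), |P.pairingIn ℤ k j| =
      ∑ k ∈ b.support, |P.pairingIn ℤ k j| := by
    rw [Finset.sum_image hinj]
    exact Finset.sum_congr rfl fun k _ => hneg k
  calc 2 * ∑ k ∈ b.support, |P.pairingIn ℤ k j|
      = ∑ k ∈ b.support ∪ b.support.image (fun s => P.reflectionPerm s s),
          |P.pairingIn ℤ k j| := by
        rw [Finset.sum_union hdisj, h1]; ring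
    _ ≤ ∑ r, |P.pairingIn ℤ r j| :=
        Finset.sum_le_sum_of_subset_of_nonneg (Finset.subset_univ _)
          (fun k _ _ => abs_nonneg _)
    _ ≤ ∑ r, d r * |P.pairingIn ℤ r j| := by
        apply Finset.sum_le_sum
        intro r _
        have h2 : (1 : ℤ) ≤ d r := by exact_mod_cast hd r
        nlinarith [abs_nonneg (P.pairingIn ℤ r j)]

namespace RootData

variable {ι R M N : Type*} [CommRing R] [CharZero R] [AddCommGroup M] [Module R M]
  [AddCommGroup N] [Module R N] {P : RootPairing ι R M N} [P.IsCrystallographic] {b : P.Base}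
  {F : Type*} [Field F] {K : ι → Type*} [∀ r, Field (K r)] [∀ r, Algebra F (K r)]
  {G : Type*} [Group G] (D : RootData P b F K G)

/-- **Main theorem for simple groups with root data** -/
theorem main2 [Fintype ι] [IsDomain R] [P.IsReduced] [P.IsRootSystem] [Finite F]
    [∀ r, Finite (K r)] [IsSimpleGroup G] (α : MulAut G) (π : Equiv.Perm ι) (θ : M →+ M)
    (σ : F ≃+* F) (σr : ∀ r, K r ≃+* K (π r)) (c : ∀ r, (K (π r))ˣ)
    (hα : ∀ r A, α (D.φ r A) = D.φ (π r) (tw (c r) (σr r) A))
    (hσr : ∀ r a, σr r (algebraMap F (K r) a) = algebraMap F (K (π r)) (σ a))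
    (hπ : ∀ r, P.root (π r) = θ (P.root r)) (hs : ∀ i ∈ b.support, π i ∈ b.support)
    (ω : Equiv.Perm b.support)
    (hω : ∀ i j : b.support, P.pairingIn ℤ (ω i) (ω j) = P.pairingIn ℤ i j)
    (hq : ∀ j ∈ b.support, orderOf ω * (orderOf π * ∑ r, Module.finrank F (K r) *
      |P.pairingIn ℤ r j|) < 2 * ((Nat.card {z : F // σ z = z} : ℤ) - 1))
    (hσ : σ = 1 → ∀ j ∈ b.support, ∑ k ∈ b.support, |P.pairingIn ℤ k j| + 3 < Nat.card F) :
    ∃ x ∈ coset α, (∀ y ∈ coset (α ^ 2), y ≠ 1 → y ∈ cls x * cls x) ∧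
      ∀ n : G, MulAut.conj n * α * (MulAut.conj n)⁻¹ = α⁻¹ →
        (∀ (j : b.support) (a : Fˣ), n * D.φ j (dg (bu F (K j) a)) * n⁻¹ =
          (D.φ (ω j) (dg (bu F (K (ω j)) a)))⁻¹) → 1 ∈ cls x * cls x := by
  classical
  have hrefl : Module.IsReflexive R M := .of_isPerfPair P.toLinearMap
  have : Module.IsTorsionFree R M := inferInstance
  set L := orderOf π with hL
  have hL0 : 0 < L := orderOf_pos π
  set n0 := orderOf ω with hn0
  have hn0' : 0 < n0 := orderOf_pos ω
  have hLr : ∀ r, π^[L] r = r := by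
    intro r
    have h1 : π ^ L = 1 := pow_orderOf_eq_one π
    rw [Equiv.Perm.iterate_eq_pow, h1]; rfl
  set s : Fˣ →* Fˣ := Units.map (σ : F →* F) with hsdef
  set N := Nat.card {z : Fˣ // s z = z} with hN
  have hne : Nonempty {z : Fˣ // s z = z} := ⟨⟨1, map_one s⟩⟩
  have hN0 : 0 < N := Nat.card_pos
  have hN1 : (Nat.card {z : F // σ z = z} : ℤ) - 1 = N := by
    have e : {z : F // σ z = z} ≃ Option {z : Fˣ // s z = z} :=
      { toFun := fun z => if h : (z : F) = 0 then none else
          some ⟨Units.mk0 z h, Units.ext (by rw [hsdef, Units.coe_map]; exact z.2)⟩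
        invFun := fun z => match z with
          | none => ⟨0, map_zero σ⟩
          | some z => ⟨(z : Fˣ), by
              have := congrArg Units.val z.2
              exact this⟩
        left_inv := by
          rintro ⟨z, hz⟩
          by_cases h : z = 0
          · subst h; simp
          · simp [h]
        right_inv := by
          rintro (_ | ⟨z, hz⟩)
          · simp
          · simp }
    rw [Nat.card_congr e, Finite.card_option]; push_cast; ring
  -- the degrees
  set d : ι → ℕ := fun r => Module.finrank F (K r) with hd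
  have hd0 : ∀ r, 1 ≤ d r := fun r => Module.finrank_pos
  have hd1 : ∀ r, d (π r) = d r := fun r => finrank_eq (σr r)
  have hd2 : ∀ r r', P.root r' = -P.root r → d r' = d r := by
    intro r r' h
    obtain ⟨e, -⟩ := D.neg r r' h
    exact finrank_eq e
  -- the bound on the base field
  have hFc : (Nat.card F : ℤ) = Nat.card Fˣ + 1 := by
    have := Fintype.ofFinite F
    have h1 : Nat.card Fˣ = Nat.card F - 1 := Nat.card_units F
    have h2 : 0 < Nat.card F := Nat.card_pos
    omega
  have hF : ∀ i ∈ b.support, ∑ k ∈ b.support, |P.pairingIn ℤ k i| + 2 < Nat.card Fˣ := by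
    intro i hi
    by_cases hσ1 : σ = 1
    · have h1 := hσ hσ1 i hi
      rw [hFc] at h1
      linarith
    · have h1 := hq i hi
      have h2 := simple_sum_le b d hd0 i
      have h3 : ∑ r, (d r : ℤ) * |P.pairingIn ℤ r i| ≤
          n0 * (L * ∑ r, (d r : ℤ) * |P.pairingIn ℤ r i|) := by
        have h4 : (0 : ℤ) ≤ ∑ r, (d r : ℤ) * |P.pairingIn ℤ r i| :=
          Finset.sum_nonneg fun r _ => by positivity
        have h5 : (1 : ℤ) ≤ n0 := by exact_mod_cast hn0'
        have h6 : (1 : ℤ) ≤ L := by exact_mod_cast hL0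
        nlinarith [mul_nonneg (sub_nonneg.mpr h6) h4, mul_nonneg (sub_nonneg.mpr h5)
          (mul_nonneg (by positivity : (0 : ℤ) ≤ L) h4)]
      have h7 : 2 * N ≤ Nat.card Fˣ := by
        have h8 : N = Nat.card (s.eqLocus (MonoidHom.id Fˣ)) := rfl
        obtain ⟨q, hq'⟩ := Subgroup.card_subgroup_dvd_card (s.eqLocus (MonoidHom.id Fˣ))
        rw [← h8] at hq'
        have h9 : 0 < Nat.card Fˣ := Nat.card_pos
        have h10 : q ≠ 0 := by
          rintro rfl
          omega
        have h11 : q ≠ 1 := by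
          rintro rfl
          rw [mul_one] at hq'
          have h12 : s.eqLocus (MonoidHom.id Fˣ) = ⊤ := by
            apply Subgroup.eq_top_of_card_eq
            rw [← h8, hq']
          apply hσ1
          ext z
          by_cases hz : z = 0
          · rw [hz, map_zero, map_zero]
          · have h13 : Units.mk0 z hz ∈ s.eqLocus (MonoidHom.id Fˣ) := by rw [h12]; trivial
            exact congrArg Units.val h13
        have h12 : 2 ≤ q := by omega
        rw [hq', mul_comm]
        exact Nat.mul_le_mul_left N h12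
      have h8 := lt_of_le_of_lt (h2.trans h3) h1
      rw [hN1] at h8
      have h9 : |P.pairingIn ℤ i i| ≤ ∑ k ∈ b.support, |P.pairingIn ℤ k i| :=
        Finset.single_le_sum (f := fun k => |P.pairingIn ℤ k i|) (fun k _ => abs_nonneg _) hi
      have h10 : |P.pairingIn ℤ i i| = 2 := by
        have : P.pairingIn ℤ i i = 2 := by simp
        rw [this]; norm_num
      have h11 : (2 * (N : ℤ)) ≤ Nat.card Fˣ := by exact_mod_cast h7
      linarith
  obtain ⟨ν, hν1, hν2⟩ := exists_nu s L
  rw [← mem_Bs] at hν1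
  -- the constants of `α ^ L`
  choose C ρ hρ hC using fun r => D.pow_form hα hσr L r r (hLr r)
  set A : {r // 1 ≤ ht b r} → b.support → ℤ :=
    fun r j => ∑ k ∈ Finset.range L, P.pairingIn ℤ (π^[k] (r : ι)) j with hA
  set A2 : {r // 1 ≤ ht b r} → b.support → ℤ :=
    fun r j => ∑ l ∈ Finset.range n0, A r ((ω ^ l)⁻¹ j) with hA2
  -- symmetrised exponents
  set sy : (b.support → ℕ) → (b.support → ℕ) :=
    fun m j => ∑ l ∈ Finset.range n0, m ((ω ^ l) j) with hsy
  have hsy1 : ∀ m j, sy m (ω j) = sy m j := by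
    intro m j
    simp only [hsy]
    have e1 : ∀ l, (ω ^ l) (ω j) = (ω ^ (l + 1)) j := by
      intro l
      rw [pow_succ, Equiv.Perm.mul_apply]
    simp_rw [e1]
    have h1 := Finset.sum_range_succ' (fun l => m ((ω ^ l) j)) n0
    have h2 := Finset.sum_range_succ (fun l => m ((ω ^ l) j)) n0
    rw [h2] at h1
    have h3 : ω ^ n0 = 1 := pow_orderOf_eq_one ω
    rw [h3, pow_zero] at h1
    exact (Nat.add_right_cancel h1).symm
  have hsy2 : ∀ (m : b.support → ℕ) r, ∑ j, (sy m j : ℤ) * A r j = ∑ j, (m j : ℤ) * A2 r j := by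
    intro m r
    simp only [hsy, hA2, Nat.cast_sum, Finset.sum_mul, Finset.mul_sum]
    rw [Finset.sum_comm, Finset.sum_comm (s := Finset.univ)]
    refine Finset.sum_congr rfl fun l _ => ?_
    rw [← Equiv.sum_comp (ω ^ l) (fun j => (m j : ℤ) * A r ((ω ^ l)⁻¹ j))]
    refine Finset.sum_congr rfl fun j _ => ?_
    have e1 : (ω ^ l)⁻¹ ((ω ^ l) j) = j := by simp
    rw [e1]
  set bad : {r // 1 ≤ ht b r} → (b.support → ℕ) → Prop :=
    fun r m => ∃ z : (K r)ˣ, ((C r : (K r)ˣ) : K r) *
      algebraMap F (K r) ((ν ^ (∑ j, (m j : ℤ) * A2 r j) : Fˣ) : F) * ρ r z = z with hbad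
  obtain ⟨m, hm⟩ := avoid N hN0 (fun (r : {r // 1 ≤ ht b r}) j => (d r : ℤ) * A2 r j)
    (fun r => by
      obtain ⟨j, hj⟩ := exists_orb_ne b hπ hs hL0 ω hω hn0' (r : ι)
      refine ⟨j, mul_ne_zero ?_ hj⟩
      have : 0 < d r := Module.finrank_pos
      exact_mod_cast this.ne') bad
    (by
      intro r m m' hmm h
      simp only [hbad] at h ⊢
      have : ∑ j, (m' j : ℤ) * A2 r j = ∑ j, (m j : ℤ) * A2 r j := by
        refine Finset.sum_congr rfl fun j _ => ?_
        by_cases h0 : A2 r j = 0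
        · rw [h0, mul_zero, mul_zero]
        · have hdr : (d r : ℤ) ≠ 0 := by
            have : 0 < d r := Module.finrank_pos
            exact_mod_cast this.ne'
          rw [hmm j (mul_ne_zero hdr h0)]
      rw [this]; exact h)
    (by
      intro r m m' j hj h h'
      simp only [hbad] at h h'
      obtain ⟨z, hz⟩ := h
      obtain ⟨z', hz'⟩ := h'
      set E := ∑ j, (m j : ℤ) * A2 r j with hE
      set E' := ∑ j, (m' j : ℤ) * A2 r j with hE'
      have h1 := norm_arg (L := K r) σ L (ρ r) (hρ r) (ν ^ (E - E')) (z / z') (by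
        have hz0 : (z' : K r) ≠ 0 := z'.ne_zero
        have hρz0 : ρ r z' ≠ 0 := by rw [Ne, map_eq_zero_iff _ (ρ r).injective]; exact hz0
        have hC0 : ((C r : (K r)ˣ) : K r) ≠ 0 := (C r).ne_zero
        have hE0 : algebraMap F (K r) ((ν ^ E' : Fˣ) : F) ≠ 0 := by
          rw [Ne, map_eq_zero_iff _ (algebraMap F (K r)).injective]; exact Units.ne_zero _
        have h3 : algebraMap F (K r) ((ν ^ (E - E') : Fˣ) : F) *
            algebraMap F (K r) ((ν ^ E' : Fˣ) : F) = algebraMap F (K r) ((ν ^ E : Fˣ) : F) := by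
          rw [← map_mul, ← Units.val_mul, ← zpow_add, sub_add_cancel]
        rw [Units.val_div_eq_div_val, map_div₀]
        rw [mul_div_assoc', div_eq_div_iff hρz0 hz0]
        have h4 : ((C r : (K r)ˣ) : K r) * algebraMap F (K r) ((ν ^ E' : Fˣ) : F) *
          (algebraMap F (K r) ((ν ^ (E - E') : Fˣ) : F) * ρ r z * z') =
          ((C r : (K r)ˣ) : K r) * algebraMap F (K r) ((ν ^ E' : Fˣ) : F) * (z * ρ r z') := by
          calc _ = (((C r : (K r)ˣ) : K r) * (algebraMap F (K r) ((ν ^ (E - E') : Fˣ) : F) *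
            algebraMap F (K r) ((ν ^ E' : Fˣ) : F)) * ρ r z) * z' := by ring
            _ = z * z' := by rw [h3, hz]
            _ = z * (((C r : (K r)ˣ) : K r) * algebraMap F (K r) ((ν ^ E' : Fˣ) : F) * ρ r z') := by
              rw [hz']
            _ = _ := by ring
        exact mul_left_cancel₀ (mul_ne_zero hC0 hE0) h4)
      rw [← zpow_natCast, ← zpow_mul, mem_Bs] at h1
      have h2 := hν2 _ h1
      have h3 : E - E' = A2 r j * ((m j : ℤ) - m' j) := by
        rw [hE, hE', ← Finset.sum_sub_distrib, Finset.sum_eq_single_of_mem j (Finset.mem_univ _)]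
        · ring
        · intro i _ hi
          rw [hj i hi, sub_self]
      rw [h3] at h2
      convert h2 using 1
      show (d r : ℤ) * A2 r j * _ = A2 r j * _ * (d r : ℤ)
      ring)
    (by
      intro j
      -- each orbit sum is small
      have h1 : ∀ j' : b.support, n0 * ∑ r : {r // 1 ≤ ht b r}, |(d r : ℤ) * A r j'| <
          (N : ℤ) := by
        intro j'
        have h2 := sum_abs_le b hπ hs d hd1 hd2 L (j' : ι)
        have h3 := hq j' j'.2
        rw [hN1] at h3
        have h5 : (0 : ℤ) ≤ n0 := by positivity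
        have h6 := mul_le_mul_of_nonneg_left h2 h5
        have h7 := lt_of_le_of_lt h6 h3
        have h8 : 2 * ((n0 : ℤ) * ∑ r : {r // 1 ≤ ht b r}, |(d r : ℤ) * A r j'|) <
            2 * (N : ℤ) := by
          refine lt_of_eq_of_lt ?_ h7
          show _ = (n0 : ℤ) * (2 * ∑ r : {r // 1 ≤ ht b r}, |(d r : ℤ) * A r j'|)
          ring
        linarith
      have h2 : ∑ r : {r // 1 ≤ ht b r}, |(d r : ℤ) * A2 r j| ≤
          ∑ l ∈ Finset.range n0, ∑ r : {r // 1 ≤ ht b r}, |(d r : ℤ) * A r ((ω ^ l)⁻¹ j)| := by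
        rw [Finset.sum_comm]
        apply Finset.sum_le_sum
        intro r _
        simp only [hA2, Finset.mul_sum]
        exact Finset.abs_sum_le_sum_abs _ _
      have h3 : (n0 : ℤ) * ∑ l ∈ Finset.range n0,
          ∑ r : {r // 1 ≤ ht b r}, |(d r : ℤ) * A r ((ω ^ l)⁻¹ j)| < n0 * (N : ℤ) := by
        rw [Finset.mul_sum]
        refine lt_of_lt_of_eq (Finset.sum_lt_sum_of_nonempty (g := fun _ => (N : ℤ))
          (Finset.nonempty_range_iff.mpr hn0'.ne') fun l _ => h1 ((ω ^ l)⁻¹ j)) ?_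
        rw [Finset.sum_const, Finset.card_range, nsmul_eq_mul]
      have h4 : (0 : ℤ) < n0 := by exact_mod_cast hn0'
      have h5 := lt_of_mul_lt_mul_left h3 h4.le
      exact lt_of_le_of_lt h2 h5)
  obtain ⟨t, ht', htn⟩ := D.exists_torus2 ν (sy m) ω (hsy1 m)
  have hxc : α * MulAut.conj t ∈ coset α := ⟨t, rfl⟩
  refine ⟨α * MulAut.conj t, hxc, ?_, ?_⟩
  · rintro y ⟨g, rfl⟩ hy
    have hyy : α ^ 2 * MulAut.conj g = (α * MulAut.conj t) ^ 2 *
        MulAut.conj ((α⁻¹ t * t)⁻¹ * g) := by
      have h1 : (α * MulAut.conj t) ^ 2 = α ^ 2 * MulAut.conj (α⁻¹ t * t) := by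
        rw [pow_two, pow_two, map_mul]
        have h2 := conj_mul_aut α t
        calc α * MulAut.conj t * (α * MulAut.conj t) =
            α * (MulAut.conj t * α) * MulAut.conj t := by group
          _ = _ := by rw [h2]; group
      rw [h1, map_mul (MulAut.conj) (α⁻¹ t * t)⁻¹ g, map_inv MulAut.conj]
      group
    obtain ⟨u, v, huv⟩ := D.good2 hα hσr hπ hs hF ν
      (fun r => ∑ j, (sy m j : ℤ) * P.pairingIn ℤ r j) t ht' L
      (by
        intro r hr
        refine ⟨_, ρ r, hC r ν _ t ht', fun z hz => ?_⟩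
        apply hm ⟨r, hr⟩
        have h1 := Cu_twist π s ν L hν1 (fun r => ∑ j, (sy m j : ℤ) * P.pairingIn ℤ r j) L r
        rw [mem_Bs] at h1
        obtain ⟨z0, hz0⟩ := h1
        have h3 : ∑ j, (m j : ℤ) * A2 ⟨r, hr⟩ j =
            ∑ i ∈ Finset.range L, ∑ j, (sy m j : ℤ) * P.pairingIn ℤ (π^[i] r) j := by
          rw [← hsy2]
          simp only [hA, Finset.mul_sum]
          rw [Finset.sum_comm]
        simp only [hbad]
        rw [h3]
        set W := Cu π (fun r => s (ν ^ (∑ j, (sy m j : ℤ) * P.pairingIn ℤ r j))) s L r with hW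
        set E := ∑ i ∈ Finset.range L, ∑ j, (sy m j : ℤ) * P.pairingIn ℤ (π^[i] r) j with hE
        have hsL : s^[L] z0⁻¹ = (s^[L] z0)⁻¹ := by
          rw [← itHom_apply, ← itHom_apply, map_inv]
        have h4 : ν ^ E * s^[L] z0⁻¹ = W * z0⁻¹ := by
          rw [div_eq_div_iff_mul_eq_mul] at hz0
          rw [hsL, mul_inv_eq_iff_eq_mul, mul_right_comm, hz0, mul_inv_cancel_comm]
        refine ⟨z * bu F (K r) z0⁻¹, ?_⟩
        have h5 := congrArg (fun w : Fˣ => algebraMap F (K r) (w : F)) h4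
        simp only [Units.val_mul (ν ^ E), Units.val_mul W, map_mul] at h5
        rw [Units.val_mul, map_mul, bu_coe, hρ, ← units_iter, ← hsdef]
        rw [Units.val_mul, bu_coe] at hz
        calc _ = (C r : K r) * (algebraMap F (K r) ((ν ^ E : Fˣ) : F) *
              algebraMap F (K r) ((s^[L] z0⁻¹ : Fˣ) : F)) * ρ r z := by ring
          _ = (C r : K r) * algebraMap F (K r) (W : F) * ρ r z *
              algebraMap F (K r) ((z0⁻¹ : Fˣ) : F) := by rw [h5]; ring
          _ = _ := by rw [hz])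
      (α ^ 2 * MulAut.conj g) ⟨_, hyy⟩ hy
    rw [huv]
    refine ⟨_, ⟨u⁻¹, rfl⟩, _, ⟨v⁻¹, rfl⟩, ?_⟩
    simp only [map_inv, inv_inv]
  · intro n hn1 hn2
    have h1 := htn n hn2
    have h2 : MulAut.conj n * (α * MulAut.conj t) * (MulAut.conj n)⁻¹ =
        α⁻¹ * (MulAut.conj t)⁻¹ := by
      have h3 : MulAut.conj (n * t * n⁻¹) = MulAut.conj t⁻¹ := by rw [h1]
      rw [map_mul, map_mul, map_inv, map_inv] at h3
      calc MulAut.conj n * (α * MulAut.conj t) * (MulAut.conj n)⁻¹ =
          (MulAut.conj n * α * (MulAut.conj n)⁻¹) *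
            (MulAut.conj n * MulAut.conj t * (MulAut.conj n)⁻¹) := by group
        _ = _ := by rw [hn1, h3]
    refine ⟨α * MulAut.conj t, ⟨1, by simp⟩, (α * MulAut.conj t)⁻¹, ⟨n⁻¹ * t, ?_⟩,
      mul_inv_cancel _⟩
    rw [map_mul MulAut.conj n⁻¹ t, map_inv MulAut.conj n, mul_inv_rev α]
    calc (MulAut.conj t)⁻¹ * α⁻¹ = (MulAut.conj t)⁻¹ * (α⁻¹ * (MulAut.conj t)⁻¹) *
        MulAut.conj t := by group
      _ = _ := by rw [← h2]; group

end RootData

end ChevT
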